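import Mathlib

/-!
# GB Cmb: a function on the monomials of degree `M`

PROOF.  `l (α - e_i + e_j) - l (α)` does not depend on `α` (with `α i ≥ 1`); start from `M e_0`, `μ 0 = l (M e_0) / M`, and move one unit after the other.
-/

set_option autoImplicit false

namespace Pool.Agent.GB

theorem exists_mu {F : Type} [Field F] [CharZero F] {d M : ℕ} (hM : 1 ≤ M) {l : (Fin d →₀ ℕ) → F}
    (h : ∀ α β α' β' : Fin d →₀ ℕ, α.degree = M → β.degree = M → α'.degree = M → β'.degree = M → α + β = α' + β' → l α + l β = l α' + l β') :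
    ∃ μ : Fin d → F, ∀ α : Fin d →₀ ℕ, α.degree = M → l α = ∑ j, (α j : F) * μ j := by
  classical
  rcases d with _ | d
  · refine ⟨fun _ => 0, fun α hα => ?_⟩
    exfalso
    have : α = 0 := Subsingleton.elim _ _
    rw [this, map_zero] at hα
    omega
  obtain ⟨N, rfl⟩ : ∃ N, M = N + 1 := ⟨M - 1, by omega⟩
  set e : Fin (d + 1) → (Fin (d + 1) →₀ ℕ) := fun j => Finsupp.single j 1 with he
  set b : Fin (d + 1) →₀ ℕ := Finsupp.single 0 N with hb
  have de : ∀ j, (e j).degree = 1 := fun j => by simp [he]
  have db : b.degree = N := by simp [hb]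
  set D : Fin (d + 1) → F := fun j => l (b + e j) - l (b + e 0) with hD
  have hD0 : D 0 = 0 := by simp [hD]
  -- one move
  have move : ∀ (γ : Fin (d + 1) →₀ ℕ) (j : Fin (d + 1)), γ.degree = N → l (γ + e j) = l (γ + e 0) + D j := by
    intro γ j hγ
    have := h (γ + e j) (b + e 0) (γ + e 0) (b + e j) (by rw [map_add, hγ, de]) (by rw [map_add, db, de])
      (by rw [map_add, hγ, de]) (by rw [map_add, db, de]) (by abel)
    simp only [hD]
    linear_combination this
  have main : ∀ (n : ℕ) (α : Fin (d + 1) →₀ ℕ), α.degree = N + 1 → N + 1 - α 0 = n → l α = l (b + e 0) + ∑ j, (α j : F) * D j := by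
    intro n
    induction n with
    | zero =>
      intro α hα hn
      have hsum : ∑ i, α i = N + 1 := by rw [← Finsupp.degree_eq_sum, hα]
      have h0 : α 0 + ∑ i : Fin d, α i.succ = N + 1 := by rw [← hsum, Fin.sum_univ_succ]
      have hα0 : α 0 = N + 1 := by omega
      have hz : ∑ i : Fin d, α i.succ = 0 := by omega
      have hz' : ∀ i : Fin d, α i.succ = 0 := fun i => by
        have := Finset.sum_eq_zero_iff.1 hz i (Finset.mem_univ _)
        exact this
      have e1 : α = b + e 0 := by
        ext i
        refine Fin.cases ?_ (fun i => ?_) i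
        · simp [hb, he, hα0]
        · simp [hb, he, hz']
      rw [Fin.sum_univ_succ, hD0, mul_zero, zero_add]
      have e2 : ∑ i : Fin d, (α i.succ : F) * D i.succ = 0 := Finset.sum_eq_zero fun i _ => by rw [hz', Nat.cast_zero, zero_mul]
      rw [e2, add_zero, e1]
    | succ n ih =>
      intro α hα hn
      have hsum : ∑ i, α i = N + 1 := by rw [← Finsupp.degree_eq_sum, hα]
      have h0 : α 0 + ∑ i : Fin d, α i.succ = N + 1 := by rw [← hsum, Fin.sum_univ_succ]
      have hne : ∑ i : Fin d, α i.succ ≠ 0 := by omega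
      obtain ⟨i, -, hi⟩ := Finset.exists_ne_zero_of_sum_ne_zero hne
      set j := i.succ with hj
      have hle : e j ≤ α := by
        rw [he]
        simp only [Finsupp.single_le_iff]
        omega
      set γ := α - e j with hγ
      have hαγ : α = γ + e j := (tsub_add_cancel_of_le hle).symm
      have dγ : γ.degree = N := by
        have h3 : (γ + e j).degree = N + 1 := by rw [← hαγ, hα]
        rw [map_add, de] at h3
        omega
      have hj0 : e j 0 = 0 := by
        rw [he]
        simp [hj]
      have hγ0 : γ 0 = α 0 := by rw [hγ, Finsupp.tsub_apply, hj0, Nat.sub_zero]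
      have hβ0 : (γ + e 0) 0 = α 0 + 1 := by
        rw [Finsupp.add_apply, hγ0]
        simp [he]
      have h1 := ih (γ + e 0) (by rw [map_add, dγ, de]) (by rw [hβ0]; omega)
      have s1 : ∀ (k : Fin (d + 1)), ∑ i, ((γ + e k) i : F) * D i = (∑ i, (γ i : F) * D i) + D k := by
        intro k
        have : ∀ i, ((γ + e k) i : F) * D i = (γ i : F) * D i + (if i = k then D i else 0) := by
          intro i
          rw [Finsupp.add_apply, Nat.cast_add, add_mul]
          congr 1
          simp only [he]
          rw [Finsupp.single_apply]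
          by_cases hik : i = k
          · rw [if_pos hik, if_pos hik.symm]; simp
          · rw [if_neg hik, if_neg (Ne.symm hik)]; simp
        rw [Finset.sum_congr rfl fun i _ => this i, Finset.sum_add_distrib]
        simp
      rw [hαγ, move γ j dγ, h1, s1, s1, hD0]
      ring
  refine ⟨fun j => D j + l (b + e 0) / (N + 1 : ℕ), fun α hα => ?_⟩
  rw [main _ α hα rfl]
  have hsum : ∑ i, α i = N + 1 := by rw [← Finsupp.degree_eq_sum, hα]
  have hN : ((N + 1 : ℕ) : F) ≠ 0 := by exact_mod_cast Nat.succ_ne_zero N
  have : ∑ j, (α j : F) * (D j + l (b + e 0) / (N + 1 : ℕ)) = (∑ j, (α j : F) * D j) + (∑ j, (α j : F)) * (l (b + e 0) / (N + 1 : ℕ)) := by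
    rw [Finset.sum_mul, ← Finset.sum_add_distrib]
    exact Finset.sum_congr rfl fun j _ => by ring
  rw [this, ← Nat.cast_sum, hsum, mul_div_cancel₀ _ hN]
  ring

end Pool.Agent.GB
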