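import Pool.Agent.GB.Defs

/-!
# GB Crm: relations with constant coefficients (Cramer's rule)

PROOF.  `c i α = cdet (p ∘ update I α i) / cdet (p ∘ I)`.
-/

set_option autoImplicit false

open MvPolynomial

namespace Pool.Agent.GB

theorem exists_rel {K : Type} [Field K] [Algebra ℂ K] {d M : ℕ} {ι : Type} {e : Fin d → Derivation ℂ K K} {p : ι → MvPolynomial (Fin d) K}
    (hp : ∀ i, (p i).IsHomogeneous M) {I : Mon d M → ι} (hI : cdet (fun α => p (I α)) ≠ 0)
    (hk : ∀ (I' : Mon d M → ι) (j : Fin d), e j (cdet (fun α => p (I' α)) / cdet (fun α => p (I α))) = 0) :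
    ∃ c : ι → Mon d M → K, Rel e p I c := by
  classical
  set A : Matrix (Mon d M) (Mon d M) K := Matrix.of fun α β : Mon d M => coeff β.1 (p (I α)) with hA
  have hdet : cdet (fun α => p (I α)) = A.det := by
    unfold cdet
    rw [hA]
  have hupd : ∀ (i : ι) (α : Mon d M), cdet (fun α' => p (Function.update I α i α')) =
      (A.updateRow α fun β => coeff β.1 (p i)).det := by
    intro i α
    unfold cdet
    congr 1
    ext α' β
    rw [Matrix.updateRow_apply, Matrix.of_apply]
    show coeff β.1 (p (Function.update I α i α')) = _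
    rw [Function.update_apply]
    split_ifs with h
    · rfl
    · rw [hA, Matrix.of_apply]
  refine ⟨fun i α => cdet (fun α' => p (Function.update I α i α')) / cdet (fun α => p (I α)), hp, hI, fun i => ?_, fun i α j => hk _ j⟩
  ext m
  rw [coeff_sum]
  simp only [coeff_C_mul]
  by_cases hm : m ∈ (Finset.univ : Finset (Fin d)).finsuppAntidiag M
  · -- Cramer's rule
    have hc := congrFun (Matrix.mulVec_cramer A.transpose fun β : Mon d M => coeff β.1 (p i)) ⟨m, hm⟩
    rw [Matrix.mulVec, dotProduct, Matrix.det_transpose, Pi.smul_apply, smul_eq_mul] at hc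
    have hd : A.det ≠ 0 := hdet ▸ hI
    apply mul_left_cancel₀ hd
    rw [← hc, Finset.mul_sum]
    refine Finset.sum_congr rfl fun α _ => ?_
    have hAα : A.transpose ⟨m, hm⟩ α = coeff m (p (I α)) := by rw [Matrix.transpose_apply, hA, Matrix.of_apply]
    rw [Matrix.cramer_transpose_apply, ← hupd, hdet, hAα]
    field_simp
  · have hdeg : m.degree ≠ M := by
      intro h
      apply hm
      rw [Finset.mem_finsuppAntidiag]
      exact ⟨by rw [← h, Finsupp.degree_eq_sum], Finset.subset_univ _⟩
    rw [(hp i).coeff_eq_zero hdeg]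
    symm
    refine Finset.sum_eq_zero fun α _ => ?_
    rw [(hp (I α)).coeff_eq_zero hdeg, mul_zero]

end Pool.Agent.GB
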