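import Mathlib
import Pool.Agent.H23.Omega

/-!
# GB Dex: derivations of rational function fields

PROOF.  Characteristic `0`: `F = K (t_1, …, t_d)`.  A transcendence basis of `K` and the `t_j` are a transcendence basis of `F`, `H23.exists_basis_kaehler`, and a
derivation of `K` is determined by its values on a transcendence basis.
-/

set_option autoImplicit false

open MvPolynomial

namespace Pool.Agent.GB

/-- A derivation of `K` is determined by its values on a transcendence basis. -/
private theorem der_ext {K : Type} [Field K] [Algebra ℂ K] {k : ℕ} {z : Fin k → K} (hz : IsTranscendenceBasis ℂ z) {M : Type} [AddCommGroup M]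
    [Module ℂ M] [Module K M] [IsScalarTower ℂ K M] (δ δ' : Derivation ℂ K M) (h : ∀ i, δ (z i) = δ' (z i)) : δ = δ' := by
  obtain ⟨b, hb⟩ := Pool.Agent.H23.exists_basis_kaehler hz
  have h1 : δ.liftKaehlerDifferential = δ'.liftKaehlerDifferential := by
    apply b.ext
    intro i
    rw [hb, Derivation.liftKaehlerDifferential_comp_D, Derivation.liftKaehlerDifferential_comp_D, h]
  ext x
  rw [← δ.liftKaehlerDifferential_comp_D, ← δ'.liftKaehlerDifferential_comp_D, h1]

theorem exists_der {K : Type} [Field K] [Algebra ℂ K] {k : ℕ} {z : Fin k → K} (hz : IsTranscendenceBasis ℂ z) {d : ℕ}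
    (δ : Derivation ℂ K (FractionRing (MvPolynomial (Fin d) K))) (W : Fin d → FractionRing (MvPolynomial (Fin d) K)) :
    ∃ D : Derivation ℂ (FractionRing (MvPolynomial (Fin d) K)) (FractionRing (MvPolynomial (Fin d) K)),
      (∀ f : K, D (algebraMap K _ f) = δ f) ∧ ∀ j, D (algebraMap (MvPolynomial (Fin d) K) _ (X j)) = W j := by
  have h1 : IsTranscendenceBasis K (X : Fin d → MvPolynomial (Fin d) K) := IsTranscendenceBasis.mvPolynomial (Fin d) K
  have h0 : Algebra.IsAlgebraic (MvPolynomial (Fin d) K) (FractionRing (MvPolynomial (Fin d) K)) :=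
    IsLocalization.isAlgebraic _ (nonZeroDivisors (MvPolynomial (Fin d) K))
  have h2 : IsTranscendenceBasis K (algebraMap (MvPolynomial (Fin d) K) (FractionRing (MvPolynomial (Fin d) K)) ∘ (X : Fin d → MvPolynomial (Fin d) K)) :=
    h1.algebraMap_comp
  have h3 := hz.sumElim_comp h2
  obtain ⟨b, hb⟩ := Pool.Agent.H23.exists_basis_kaehler h3
  let L : Ω[FractionRing (MvPolynomial (Fin d) K)⁄ℂ] →ₗ[FractionRing (MvPolynomial (Fin d) K)] FractionRing (MvPolynomial (Fin d) K) :=
    b.constr ℕ (Sum.elim W fun i => δ (z i))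
  let D : Derivation ℂ (FractionRing (MvPolynomial (Fin d) K)) (FractionRing (MvPolynomial (Fin d) K)) :=
    L.compDer (KaehlerDifferential.D ℂ (FractionRing (MvPolynomial (Fin d) K)))
  have hD : ∀ r, D (Sum.elim (algebraMap (MvPolynomial (Fin d) K) (FractionRing (MvPolynomial (Fin d) K)) ∘ X) (algebraMap K (FractionRing (MvPolynomial (Fin d) K)) ∘ z) r) =
      Sum.elim W (fun i => δ (z i)) r := by
    intro r
    change L (KaehlerDifferential.D ℂ (FractionRing (MvPolynomial (Fin d) K)) _) = _
    rw [← hb, Module.Basis.constr_basis]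
  refine ⟨D, fun f => ?_, fun j => hD (Sum.inl j)⟩
  have h4 : D.compAlgebraMap K = δ := by
    apply der_ext hz
    intro i
    exact hD (Sum.inr i)
  rw [← h4]
  rfl

end Pool.Agent.GB
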