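import Pool.Agent.GB.Defs

/-!
# GB Inv: change of the frame

PROOF.  `vol ≠ 0`: the derivations `e, h` are a basis of `Der (K)` (a derivation is determined by its values on the transcendence basis `z`, as `K` is
algebraic over `ℂ(z)`).  Write `(e', h') = G (e, h)`, `G = ((g, n), (*, m))`; `vol' = det G · vol`.  `0 = e' φ = n (h φ)`, and `dph φ h ≠ 0` (`dph_ne`: the
matrix `((e, h) φ)` has rank `κ`, since the `dφ` are independent, and its rows `e φ` are `0`), so `n = 0`, `det G = det g · det m`, `dph φ h' = det m · dph φ h`.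
-/

set_option autoImplicit false

open MvPolynomial
open Pool.Agent.H23 (dualDer)
open Pool.Agent.H23.Fano (PrimeDivisorOver Form)

namespace Pool.Agent.GB

variable {K : Type} [Field K] [Algebra ℂ K] {k d κ : ℕ}

theorem inv_sum {σ : Type} (s : Finset σ) (c : σ → K) (E : σ → Derivation ℂ K K) (x : K) : (∑ r ∈ s, c r • E r) x = ∑ r ∈ s, c r * E r x := by
  classical
  induction s using Finset.induction_on with
  | empty => simp
  | insert a s ha ih =>
    rw [Finset.sum_insert ha, Finset.sum_insert ha, Derivation.add_apply, ih]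
    rfl

/-- a derivation is determined by its values on a transcendence basis -/
theorem inv_ext {z : Fin k → K} (hz : IsTranscendenceBasis ℂ z) {D D' : Derivation ℂ K K} (h : ∀ j, D (z j) = D' (z j)) : D = D' := by
  obtain ⟨β, hβ⟩ := Pool.Agent.H23.exists_basis_kaehler hz
  have h1 : D.liftKaehlerDifferential = D'.liftKaehlerDifferential := by
    refine β.ext fun j => ?_
    rw [hβ, Derivation.liftKaehlerDifferential_comp_D, Derivation.liftKaehlerDifferential_comp_D, h]
  rw [← Derivation.liftKaehlerDifferential_comp D, ← Derivation.liftKaehlerDifferential_comp D', h1]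

/-- the matrix of the frame -/
def ivm (z : Fin k → K) (ε : Fin d ⊕ Fin κ ≃ Fin k) (e : Fin d → Derivation ℂ K K) (h : Fin κ → Derivation ℂ K K) :
    Matrix (Fin d ⊕ Fin κ) (Fin d ⊕ Fin κ) K := Matrix.of fun r s => (Sum.elim e h r) (z (ε s))

theorem vol_eq (z : Fin k → K) (ε : Fin d ⊕ Fin κ ≃ Fin k) (e : Fin d → Derivation ℂ K K) (h : Fin κ → Derivation ℂ K K) :
    vol z ε e h = (ivm z ε e h).det := rfl

/-- every derivation is a combination of the frame -/
theorem inv_comb {z : Fin k → K} (hz : IsTranscendenceBasis ℂ z) {ε : Fin d ⊕ Fin κ ≃ Fin k} {e : Fin d → Derivation ℂ K K}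
    {h : Fin κ → Derivation ℂ K K} (hv : vol z ε e h ≠ 0) (D : Derivation ℂ K K) :
    ∃ c : Fin d ⊕ Fin κ → K, D = ∑ r, c r • Sum.elim e h r := by
  have hu : IsUnit (ivm z ε e h).det := isUnit_iff_ne_zero.2 hv
  refine ⟨Matrix.vecMul (fun s => D (z (ε s))) (ivm z ε e h)⁻¹, inv_ext hz fun j => ?_⟩
  have h1 : Matrix.vecMul (Matrix.vecMul (fun s => D (z (ε s))) (ivm z ε e h)⁻¹) (ivm z ε e h) = fun s => D (z (ε s)) := by
    rw [Matrix.vecMul_vecMul, Matrix.nonsing_inv_mul _ hu, Matrix.vecMul_one]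
  have h2 := congrFun h1 (ε.symm j)
  simp only [Equiv.apply_symm_apply] at h2
  rw [← h2]
  rw [inv_sum]
  simp only [Matrix.vecMul, dotProduct, ivm, Matrix.of_apply, Equiv.apply_symm_apply]

theorem dph_ne {z : Fin k → K} (hz : IsTranscendenceBasis ℂ z) {ε : Fin d ⊕ Fin κ ≃ Fin k} {φ : Fin κ → K}
    (hφ : LinearIndependent K fun i => KaehlerDifferential.D ℂ K (φ i)) {e : Fin d → Derivation ℂ K K} {h : Fin κ → Derivation ℂ K K}
    (he : ∀ j i, e j (φ i) = 0) (hv : vol z ε e h ≠ 0) : dph φ h ≠ 0 := by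
  intro h0
  obtain ⟨c, hc0, hc⟩ := Matrix.exists_mulVec_eq_zero_iff.2 h0
  obtain ⟨β, hβ⟩ := Pool.Agent.H23.exists_basis_kaehler hz
  have hω : ∑ l, c l • KaehlerDifferential.D ℂ K (φ l) = 0 := by
    apply β.ext_elem
    intro j
    rw [map_zero, Finsupp.zero_apply]
    obtain ⟨a, ha⟩ := inv_comb hz hv (dualDer β j)
    have h1 : ∀ l, β.repr (KaehlerDifferential.D ℂ K (φ l)) j = ∑ r, a r * (Sum.elim e h r) (φ l) := by
      intro l
      rw [← Pool.Agent.H23.dualDer_apply, ha, inv_sum]
    simp only [map_sum, map_smul, Finsupp.coe_finsetSum, Finset.sum_apply, Finsupp.coe_smul, Pi.smul_apply, smul_eq_mul, h1]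
    have h2 : ∀ r, ∑ l, c l * (Sum.elim e h r) (φ l) = 0 := by
      rintro (r | r)
      · simp [he]
      · have := congrFun hc r
        simp only [Matrix.mulVec, dotProduct, Matrix.of_apply, Pi.zero_apply] at this
        rw [← this]
        exact Finset.sum_congr rfl fun l _ => by simp [mul_comm]
    calc ∑ l, c l * ∑ r, a r * (Sum.elim e h r) (φ l) = ∑ r, a r * ∑ l, c l * (Sum.elim e h r) (φ l) := by
          simp only [Finset.mul_sum]
          rw [Finset.sum_comm]
          exact Finset.sum_congr rfl fun r _ => Finset.sum_congr rfl fun l _ => by ring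
      _ = 0 := by simp [h2]
  apply hc0
  funext l
  exact Fintype.linearIndependent_iff.1 hφ c hω l

theorem exists_change {z : Fin k → K} (hz : IsTranscendenceBasis ℂ z) {ε : Fin d ⊕ Fin κ ≃ Fin k} {φ : Fin κ → K}
    (hφ : LinearIndependent K fun i => KaehlerDifferential.D ℂ K (φ i)) {e e' : Fin d → Derivation ℂ K K} {h h' : Fin κ → Derivation ℂ K K}
    (he : ∀ j i, e j (φ i) = 0) (he' : ∀ j i, e' j (φ i) = 0) (hv : vol z ε e h ≠ 0) (hv' : vol z ε e' h' ≠ 0) :
    ∃ g : Matrix (Fin d) (Fin d) K, g.det ≠ 0 ∧ (∀ r, e' r = ∑ s, g r s • e s) ∧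
      dph φ h' / vol z ε e' h' = (dph φ h / vol z ε e h) / g.det := by
  have hH := dph_ne hz hφ he hv
  have hcomb := fun r => inv_comb hz hv (Sum.elim e' h' r)
  choose G hG using hcomb
  have hGe : ∀ (r : Fin d ⊕ Fin κ) (x : K), (Sum.elim e' h' r) x = ∑ s, G r s * (Sum.elim e h s) x := by
    intro r x
    rw [hG r, inv_sum]
  -- the block `n` vanishes
  have hn : ∀ r i, G (Sum.inl r) (Sum.inr i) = 0 := by
    intro r
    have h1 : Matrix.vecMul (fun i => G (Sum.inl r) (Sum.inr i)) (Matrix.of fun i l => h i (φ l)) = 0 := by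
      funext l
      have h2 := hGe (Sum.inl r) (φ l)
      rw [Fintype.sum_sum_type] at h2
      simp only [Sum.elim_inl, Sum.elim_inr, he', he, mul_zero, Finset.sum_const_zero, zero_add] at h2
      simp only [Matrix.vecMul, dotProduct, Matrix.of_apply, Pi.zero_apply]
      exact h2.symm
    have h3 := Matrix.eq_zero_of_vecMul_eq_zero hH h1
    exact fun i => congrFun h3 i
  obtain ⟨g, hg⟩ : ∃ g : Matrix (Fin d) (Fin d) K, g = Matrix.of fun r s => G (Sum.inl r) (Sum.inl s) := ⟨_, rfl⟩
  obtain ⟨m, hm⟩ : ∃ m : Matrix (Fin κ) (Fin κ) K, m = Matrix.of fun r s => G (Sum.inr r) (Sum.inr s) := ⟨_, rfl⟩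
  have hGb : Matrix.of G = Matrix.fromBlocks g 0 (Matrix.of fun r s => G (Sum.inr r) (Sum.inl s)) m := by
    ext r s
    rcases r with r | r <;> rcases s with s | s
    · simp [hg]
    · simp [hn]
    · simp
    · simp [hm]
  have hdet : (Matrix.of G).det = g.det * m.det := by rw [hGb, Matrix.det_fromBlocks_zero₁₂]
  have hvol : vol z ε e' h' = g.det * m.det * vol z ε e h := by
    rw [← hdet, vol_eq, vol_eq, ← Matrix.det_mul]
    congr 1
    ext r s
    simp only [ivm, Matrix.of_apply, Matrix.mul_apply]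
    exact hGe r _
  have hdph : dph φ h' = m.det * dph φ h := by
    rw [dph, dph, ← Matrix.det_mul]
    congr 1
    ext i l
    have h2 := hGe (Sum.inr i) (φ l)
    rw [Fintype.sum_sum_type] at h2
    simp only [Sum.elim_inl, Sum.elim_inr, he, mul_zero, Finset.sum_const_zero, zero_add] at h2
    simp only [Matrix.of_apply, Matrix.mul_apply, hm]
    exact h2
  have hgm : g.det * m.det ≠ 0 := by
    intro h0
    rw [hvol, h0, zero_mul] at hv'
    exact hv' rfl
  have hg0 := left_ne_zero_of_mul hgm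
  have hm0 := right_ne_zero_of_mul hgm
  refine ⟨g, hg0, fun r => ?_, ?_⟩
  · have h1 := hG (Sum.inl r)
    rw [Fintype.sum_sum_type] at h1
    simp only [Sum.elim_inl, Sum.elim_inr, hn, zero_smul, Finset.sum_const_zero, add_zero] at h1
    rw [h1, hg]
    simp
  · rw [hvol, hdph]
    field_simp

/-- the frame is linearly independent -/
theorem indep_of_vol {z : Fin k → K} {ε : Fin d ⊕ Fin κ ≃ Fin k} {e : Fin d → Derivation ℂ K K} {h : Fin κ → Derivation ℂ K K}
    (hv : vol z ε e h ≠ 0) : LinearIndependent K e := by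
  rw [Fintype.linearIndependent_iff]
  intro c hc
  have h1 : Matrix.vecMul (Sum.elim c 0) (ivm z ε e h) = 0 := by
    funext s
    have h2 := congrArg (fun D : Derivation ℂ K K => D (z (ε s))) hc
    rw [inv_sum, Derivation.coe_zero, Pi.zero_apply] at h2
    simp only [Matrix.vecMul, dotProduct, ivm, Matrix.of_apply, Pi.zero_apply, Fintype.sum_sum_type, Sum.elim_inl, Sum.elim_inr, zero_mul,
      Finset.sum_const_zero, add_zero]
    exact h2
  have h3 := Matrix.eq_zero_of_vecMul_eq_zero hv h1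
  exact fun i => congrFun h3 (Sum.inl i)

end Pool.Agent.GB
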