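import Pool.Agent.GB.Defs

/-!
# GB Ker: derivations which kill given functions

PROOF.  Extend `φ` by `d` elements to a transcendence basis of `K` over `ℂ` (of cardinality `k`); `H23.exists_basis_kaehler` gives a basis of the
differentials, `h` and `e` are the dual derivations (`H23.dualDer`).  `vol`: the matrix of the derivatives of `z` with respect to this transcendence basis,
invertible because the `dz_j` are a basis, too.
-/

set_option autoImplicit false

open MvPolynomial
open Pool.Agent.H23 (dualDer)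

namespace Pool.Agent.GB

variable {K : Type} [Field K] [Algebra ℂ K]

/-- Algebraically independent functions are a part of a transcendence basis. -/
private theorem exists_extend {σ : Type} {φ : σ → K} (hφ : AlgebraicIndependent ℂ φ) :
    ∃ (τ : Type) (ψ : τ → K), IsTranscendenceBasis ℂ (Sum.elim ψ φ) := by
  obtain ⟨t, ht, hb⟩ := exists_isTranscendenceBasis_superset hφ.to_subtype_range
  refine ⟨↥(t \ Set.range φ), Subtype.val, ?_⟩
  have hinj : Function.Injective (Sum.elim (Subtype.val : ↥(t \ Set.range φ) → K) φ) := by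
    refine Subtype.val_injective.sumElim hφ.injective ?_
    intro a b hab
    exact a.2.2 ⟨b, hab.symm⟩
  have hr : Set.range (Sum.elim (Subtype.val : ↥(t \ Set.range φ) → K) φ) = t := by
    rw [Set.Sum.elim_range, Subtype.range_coe, Set.sdiff_union_of_subset ht]
  refine IsTranscendenceBasis.of_subtype_range hinj ?_
  rw [hr]
  exact hb

theorem linearIndependent_D {κ : ℕ} {φ : Fin κ → K} (hφ : AlgebraicIndependent ℂ φ) :
    LinearIndependent K fun i => KaehlerDifferential.D ℂ K (φ i) := by
  obtain ⟨τ, ψ, hg⟩ := exists_extend hφ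
  obtain ⟨b, hb⟩ := Pool.Agent.H23.exists_basis_kaehler hg
  have h1 := b.linearIndependent.comp (Sum.inr : Fin κ → τ ⊕ Fin κ) Sum.inr_injective
  have h2 : (fun i : Fin κ => KaehlerDifferential.D ℂ K (φ i)) = b ∘ (Sum.inr : Fin κ → τ ⊕ Fin κ) := by
    funext i
    rw [Function.comp_apply, hb, Sum.elim_inr]
  rw [h2]
  exact h1

theorem exists_frame_ker {k d κ : ℕ} (hk : d + κ = k) {z : Fin k → K} (hz : IsTranscendenceBasis ℂ z) {φ : Fin κ → K} (hφ : AlgebraicIndependent ℂ φ) :
    ∃ (e : Fin d → Derivation ℂ K K) (h : Fin κ → Derivation ℂ K K), (∀ j i, e j (φ i) = 0) ∧ ∀ ε : Fin d ⊕ Fin κ ≃ Fin k, vol z ε e h ≠ 0 := by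
  classical
  obtain ⟨τ, ψ, hg⟩ := exists_extend hφ
  have hc : Cardinal.mk (τ ⊕ Fin κ) = Cardinal.mk (Fin k) := hg.cardinalMk_eq hz
  obtain ⟨ε0⟩ := Cardinal.eq.1 hc
  have : Finite (τ ⊕ Fin κ) := Finite.of_equiv _ ε0.symm
  have : Finite τ := Finite.of_injective (Sum.inl : τ → τ ⊕ Fin κ) Sum.inl_injective
  let _ : Fintype τ := Fintype.ofFinite τ
  have h1 : Fintype.card τ = d := by
    have h2 : Fintype.card (τ ⊕ Fin κ) = Fintype.card (Fin k) := Fintype.card_congr ε0
    rw [Fintype.card_sum, Fintype.card_fin, Fintype.card_fin] at h2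
    omega
  let η : Fin d ≃ τ := (finCongr h1.symm).trans (Fintype.equivFin τ).symm
  let θ : Fin d ⊕ Fin κ ≃ τ ⊕ Fin κ := Equiv.sumCongr η (Equiv.refl _)
  obtain ⟨b0, hb0⟩ := Pool.Agent.H23.exists_basis_kaehler hg
  let b := b0.reindex θ.symm
  let a : Fin d ⊕ Fin κ → K := fun r => Sum.elim ψ φ (θ r)
  have hb : ∀ r, b r = KaehlerDifferential.D ℂ K (a r) := by
    intro r
    rw [Module.Basis.reindex_apply, Equiv.symm_symm, hb0]
  refine ⟨fun j => dualDer b (Sum.inl j), fun i => dualDer b (Sum.inr i), fun j i => ?_, fun ε => ?_⟩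
  · have h3 : φ i = a (Sum.inr i) := rfl
    rw [h3, Pool.Agent.H23.dualDer_coord b hb, if_neg (by simp)]
  · obtain ⟨bz, hbz⟩ := Pool.Agent.H23.exists_basis_kaehler hz
    have h4 : (Matrix.of fun r s : Fin d ⊕ Fin κ =>
        (Sum.elim (fun j => dualDer b (Sum.inl j)) (fun i => dualDer b (Sum.inr i)) r) (z (ε s))) =
        b.toMatrix (bz.reindex ε.symm) := by
      ext r s
      rw [Matrix.of_apply, Module.Basis.toMatrix_apply, Module.Basis.reindex_apply, Equiv.symm_symm, hbz]
      rcases r with r | r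
      · rfl
      · rfl
    unfold vol
    rw [h4]
    intro h5
    have h6 := (Module.Basis.toMatrix_mul_toMatrix_flip b (bz.reindex ε.symm))
    have h7 := congrArg Matrix.det h6
    rw [Matrix.det_mul, h5, zero_mul, Matrix.det_one] at h7
    exact zero_ne_one h7

end Pool.Agent.GB
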