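import Pool.Agent.GB.Defs

/-!
# GB Prd: products

PROOF.  The coefficients of a product are sums of products of coefficients.  `exists_prd_index`: the `p (I α)` span the polynomials of degree `M`, so the
products span those of degree `M + M` (a monomial of degree `M + M` is a product of two monomials of degree `M`); choose a basis among them.
-/

set_option autoImplicit false

open MvPolynomial

namespace Pool.Agent.GB

theorem exists_prdFam {K : Type} [Field K] [Algebra ℂ K] {k d M : ℕ} {ι : Type} (Ψ : SymFam K k d M ι) :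
    ∃ Ψ₂ : SymFam K k d (M + M) (ι × ι), ∀ i e, Ψ₂.fn i e = Ψ.fn i.1 e * Ψ.fn i.2 e := by
  refine ⟨⟨fun i e => Ψ.fn i.1 e * Ψ.fn i.2 e, fun i e => (Ψ.hom i.1 e).mul (Ψ.hom i.2 e), fun i e g => ?_, fun i e E he α => ?_⟩, fun i e => rfl⟩
  · rw [Ψ.subst, Ψ.subst, map_mul]
  · rw [coeff_mul]
    have h : ∀ s : Finset ((Fin d →₀ ℕ) × (Fin d →₀ ℕ)), 0 ≤ E.ord (∑ x ∈ s, coeff x.1 (Ψ.fn i.1 e) * coeff x.2 (Ψ.fn i.2 e)) := by
      intro s
      induction s using Finset.cons_induction with
      | empty => simp
      | cons a s ha ih =>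
        rw [Finset.sum_cons]
        refine le_trans (le_min ?_ ih) (E.ord.map_add _ _)
        rw [AddValuation.map_mul]
        exact add_nonneg (Ψ.reg i.1 e E he _) (Ψ.reg i.2 e E he _)
    exact h _

section

variable {F : Type} [Field F] {d M : ℕ} {ι : Type}

/-- the vector of the coefficients -/
private noncomputable def prd_cv (F : Type) [Field F] (d M : ℕ) : MvPolynomial (Fin d) F →ₗ[F] (Mon d M → F) :=
  LinearMap.pi fun β => lcoeff F β.1

private theorem prd_cv_apply (q : MvPolynomial (Fin d) F) (β : Mon d M) : prd_cv F d M q β = coeff β.1 q := rfl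

private theorem prd_mem {α : Fin d →₀ ℕ} : α ∈ (Finset.univ : Finset (Fin d)).finsuppAntidiag M ↔ ∑ i, α i = M := by
  rw [Finset.mem_finsuppAntidiag]
  simp

private theorem prd_inj {q q' : MvPolynomial (Fin d) F} (hq : q.IsHomogeneous M) (hq' : q'.IsHomogeneous M) (h : prd_cv F d M q = prd_cv F d M q') :
    q = q' := by
  ext α
  by_cases hα : ∑ i, α i = M
  · exact congrFun h ⟨α, prd_mem.2 hα⟩
  · have hdeg : α.degree ≠ M := by
      rw [Finsupp.degree_eq_sum]
      exact hα
    rw [hq.coeff_eq_zero hdeg, hq'.coeff_eq_zero hdeg]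

private theorem prd_li {p : Mon d M → MvPolynomial (Fin d) F} : cdet p ≠ 0 ↔ LinearIndependent F fun α => prd_cv F d M (p α) := by
  classical
  have h := Matrix.linearIndependent_rows_iff_isUnit (A := (Matrix.of fun α β : Mon d M => coeff β.1 (p α)))
  rw [Matrix.isUnit_iff_isUnit_det, isUnit_iff_ne_zero] at h
  have e : cdet p = (Matrix.of fun α β : Mon d M => coeff β.1 (p α)).det := by
    unfold cdet
    congr 1
  rw [e, ← h]
  rfl

theorem linearIndependent_of_cdet {p : Mon d M → MvPolynomial (Fin d) F} (h : cdet p ≠ 0) : LinearIndependent F p :=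
  LinearIndependent.of_comp (prd_cv F d M) (prd_li.1 h)

/-- a family which spans the homogeneous polynomials of degree `M` contains a basis -/
theorem exists_index_of_span {p : ι → MvPolynomial (Fin d) F} (hp : ∀ i, (p i).IsHomogeneous M)
    (hs : ∀ q : MvPolynomial (Fin d) F, q.IsHomogeneous M → q ∈ Submodule.span F (Set.range p)) :
    ∃ I : Mon d M → ι, cdet (fun α => p (I α)) ≠ 0 := by
  classical
  have htop : Submodule.span F (Set.range fun i => prd_cv F d M (p i)) = ⊤ := by
    rw [eq_top_iff]
    intro w _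
    set q : MvPolynomial (Fin d) F := ∑ β : Mon d M, monomial β.1 (w β) with hq
    have hqh : q.IsHomogeneous M := by
      refine IsHomogeneous.sum _ _ _ fun β _ => isHomogeneous_monomial _ ?_
      rw [Finsupp.degree_eq_sum]
      exact prd_mem.1 β.2
    have hqw : prd_cv F d M q = w := by
      funext β
      rw [prd_cv_apply, hq, coeff_sum]
      simp only [coeff_monomial]
      rw [Finset.sum_eq_single β]
      · rw [if_pos rfl]
      · intro γ _ hγ
        rw [if_neg fun h => hγ (Subtype.ext h)]
      · intro h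
        exact absurd (Finset.mem_univ _) h
    have h1 := Submodule.mem_map_of_mem (f := prd_cv F d M) (hs q hqh)
    rw [hqw, Submodule.map_span, ← Set.range_comp] at h1
    exact h1
  obtain ⟨b, hb, hspan, hli⟩ := exists_linearIndependent F (Set.range fun i => prd_cv F d M (p i))
  rw [htop] at hspan
  let B : Module.Basis b F (Mon d M → F) := Module.Basis.mk hli (by rw [Subtype.range_coe, hspan])
  let B₀ : Module.Basis (Mon d M) F (Mon d M → F) := Pi.basisFun F (Mon d M)
  let e : Mon d M ≃ b := B₀.indexEquiv B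
  choose I hI using fun α : Mon d M => hb (e α).2
  refine ⟨I, prd_li.2 ?_⟩
  have h2 : (fun α => prd_cv F d M (p (I α))) = fun α => ((e α : b) : Mon d M → F) := funext fun α => hI α
  rw [h2]
  exact hli.comp e e.injective

theorem span_of_index {p : ι → MvPolynomial (Fin d) F} (hp : ∀ i, (p i).IsHomogeneous M)
    {I : Mon d M → ι} (hI : cdet (fun α => p (I α)) ≠ 0) {q : MvPolynomial (Fin d) F} (hq : q.IsHomogeneous M) :
    q ∈ Submodule.span F (Set.range p) := by
  classical
  have hli := prd_li.1 hI
  have hcard : Fintype.card (Mon d M) = Module.finrank F (Mon d M → F) := by rw [Module.finrank_pi]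
  have htop := hli.span_eq_top_of_card_eq_finrank' hcard
  have hw : prd_cv F d M q ∈ Submodule.span F (Set.range fun α => prd_cv F d M (p (I α))) := by
    rw [htop]
    trivial
  obtain ⟨c, hc⟩ := (Submodule.mem_span_range_iff_exists_fun F).1 hw
  have h1 : q = ∑ α, c α • p (I α) := by
    refine prd_inj (M := M) hq ?_ ?_
    · exact IsHomogeneous.sum _ _ _ fun α _ => by
        rw [smul_eq_C_mul]
        simpa using (isHomogeneous_C (Fin d) (c α)).mul (hp (I α))
    · rw [map_sum, ← hc]
      exact Finset.sum_congr rfl fun α _ => by rw [map_smul]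
  rw [h1]
  exact Submodule.sum_mem _ fun α _ => Submodule.smul_mem _ _ (Submodule.subset_span ⟨I α, rfl⟩)

private theorem prd_split (n : ℕ) : ∀ β : Fin d →₀ ℕ, n ≤ ∑ i, β i → ∃ β₁ β₂ : Fin d →₀ ℕ, β = β₁ + β₂ ∧ ∑ i, β₁ i = n := by
  classical
  induction n with
  | zero => intro β _; exact ⟨0, β, by simp, by simp⟩
  | succ n ih =>
    intro β hβ
    obtain ⟨β₁, β₂, h1, h2⟩ := ih β (by omega)
    have h3 : ∑ i, β₂ i ≠ 0 := by
      intro h0
      rw [h1] at hβ
      simp only [Finsupp.add_apply, Finset.sum_add_distrib] at hβ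
      omega
    obtain ⟨i, -, hi⟩ := Finset.exists_ne_zero_of_sum_ne_zero h3
    refine ⟨β₁ + Finsupp.single i 1, β₂ - Finsupp.single i 1, ?_, ?_⟩
    · have hle : Finsupp.single i 1 ≤ β₂ := by
        rw [Finsupp.single_le_iff]
        omega
      rw [h1, add_assoc, add_tsub_cancel_of_le hle]
    · simp only [Finsupp.add_apply, Finset.sum_add_distrib, h2]
      congr 1
      rw [Finset.sum_eq_single i]
      · simp
      · intro j _ hj
        simp [Finsupp.single_apply, hj.symm]
      · simp

theorem exists_prd_index {p : ι → MvPolynomial (Fin d) F} (hp : ∀ i, (p i).IsHomogeneous M)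
    {I : Mon d M → ι} (hI : cdet (fun α => p (I α)) ≠ 0) : ∃ I₂ : Mon d (M + M) → ι × ι, cdet (fun α => p (I₂ α).1 * p (I₂ α).2) ≠ 0 := by
  classical
  refine exists_index_of_span (p := fun i : ι × ι => p i.1 * p i.2) (fun i => (hp i.1).mul (hp i.2)) fun q hq => ?_
  have hmul : Submodule.span F (Set.range p) * Submodule.span F (Set.range p) ≤ Submodule.span F (Set.range fun i : ι × ι => p i.1 * p i.2) := by
    rw [Submodule.span_mul_span]
    refine Submodule.span_mono ?_
    rintro _ ⟨_, ⟨i, rfl⟩, _, ⟨j, rfl⟩, rfl⟩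
    exact ⟨(i, j), rfl⟩
  rw [q.as_sum]
  refine Submodule.sum_mem _ fun β hβ => ?_
  have hdeg : ∑ i, β i = M + M := by
    have := hq (mem_support_iff.1 hβ)
    rw [Finsupp.weight_apply] at this
    simpa [Finsupp.sum_fintype] using this
  obtain ⟨β₁, β₂, h1, h2⟩ := prd_split M β (by omega)
  have h3 : ∑ i, β₂ i = M := by
    rw [h1] at hdeg
    simp only [Finsupp.add_apply, Finset.sum_add_distrib] at hdeg
    omega
  have h4 : ∀ γ : Fin d →₀ ℕ, ∑ i, γ i = M → ∀ c : F, monomial γ c ∈ Submodule.span F (Set.range p) := fun γ hγ c =>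
    span_of_index hp hI (isHomogeneous_monomial _ (by rw [Finsupp.degree_eq_sum]; exact hγ))
  have h5 : monomial β (coeff β q) = monomial β₁ (coeff β q) * monomial β₂ 1 := by
    rw [monomial_mul, mul_one, ← h1]
  rw [h5]
  exact hmul (Submodule.mul_mem_mul (h4 β₁ h2 _) (h4 β₂ h3 _))

end

end Pool.Agent.GB
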