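import Pool.Agent.GG.Defs
import Pool.Agent.H23.Forms
import Pool.Agent.H17R.TrBasis
import Pool.Agent.H17LG.Variety
import Pool.Agent.H17GT.Main

/-!
# GB Defs: subvarieties which are not of general type (Theorem B of GG-ALL)

`K` is the function field of a variety of dimension `k`, `z` a transcendence basis.

* `DC E b`: `b` is a basis of the differentials of coordinates at the prime divisor `E`: `b i = d g_i`, and the dual derivations preserve the local ring of `E`.
* `jac z b = det (∂z_j / ∂g_i)`, `RegF z l f`: the form `f (dz_1 ∧ … ∧ dz_k)^l` is regular along all prime divisors.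
* `Mon d M`: the monomials of degree `M` in `d` variables, `cdet p`: the determinant of the coefficients of the polynomials `p α`, `α ∈ Mon d M`.
* `sbs g`: the linear substitution of variables.
* `SymFam`: a family of symmetric differentials of degree `M`, as a function of frames `e` (tuples of `d` derivations).
-/

set_option autoImplicit false

open MvPolynomial
open Pool.Agent.H23 (dualDer)
open Pool.Agent.H23.Fano (PrimeDivisorOver Form)
open Pool.Agent.H17LG.Variety (FunField ratio IsLogGeneralType)
open Pool.Agent.H13.SM (conTan cone)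

noncomputable section

namespace Pool.Agent.GB

/-! ## globally generated symmetric powers -/

/-- The symmetric differentials `θ k` of degree `m` generate `S^m Ω_X` at every point: every homogeneous polynomial of degree `m` on the tangent space at
`x` is a linear combination of them. -/
def Generated {N : ℕ} {P : Ideal (MvPolynomial (Fin (N + 1)) ℂ)} {J m : ℕ} (θ : Fin J → Pool.Agent.GG.SymSec P m) : Prop :=
  ∀ x ∈ cone P, ∀ G : MvPolynomial (Fin (N + 1)) ℂ, G.IsHomogeneous m → (∀ (v : Fin (N + 1) → ℂ) (a : ℂ), eval (v + a • x) G = eval v G) →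
    ∃ c : Fin J → ℂ, ∀ v ∈ conTan P x, eval v G = ∑ k, c k * (θ k).toFun x v

/-! ## forms -/

section

variable {K : Type} [Field K] [Algebra ℂ K] {k d κ M : ℕ} {ι : Type}

/-- the basis `b` of the differentials comes from coordinates at `E` -/
def DC (E : PrimeDivisorOver K k) (b : Module.Basis (Fin k) K Ω[K⁄ℂ]) : Prop :=
  ∃ g : Fin k → K, (∀ i, b i = KaehlerDifferential.D ℂ K (g i)) ∧ (∀ i, 0 ≤ E.ord (g i)) ∧ ∀ i f, 0 ≤ E.ord f → 0 ≤ E.ord (dualDer b i f)

/-- the determinant of the derivatives of `z` with respect to the coordinates of `b` -/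
def jac (z : Fin k → K) (b : Module.Basis (Fin k) K Ω[K⁄ℂ]) : K := (Matrix.of fun i j => dualDer b i (z j)).det

/-- the form `f (dz_1 ∧ … ∧ dz_k)^l` is regular along all prime divisors -/
def RegF (z : Fin k → K) (l : ℕ) (f : K) : Prop :=
  ∀ (E : PrimeDivisorOver K k) (b : Module.Basis (Fin k) K Ω[K⁄ℂ]), DC E b → 0 ≤ E.ord (f * jac z b ^ l)

/-- the value of `dz_1 ∧ … ∧ dz_k` at the derivations `e`, `h` -/
def vol (z : Fin k → K) (ε : Fin d ⊕ Fin κ ≃ Fin k) (e : Fin d → Derivation ℂ K K) (h : Fin κ → Derivation ℂ K K) : K :=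
  (Matrix.of fun r s : Fin d ⊕ Fin κ => (Sum.elim e h r) (z (ε s))).det

/-- the value of `dφ_1 ∧ … ∧ dφ_κ` at `h` -/
def dph (φ : Fin κ → K) (h : Fin κ → Derivation ℂ K K) : K := (Matrix.of fun i l => h i (φ l)).det

end

/-! ## homogeneous polynomials -/

/-- the monomials of degree `M` in `d` variables -/
abbrev Mon (d M : ℕ) : Type := ↥((Finset.univ : Finset (Fin d)).finsuppAntidiag M)

/-- the determinant of the coefficients -/
def cdet {F : Type} [Field F] {d M : ℕ} (p : Mon d M → MvPolynomial (Fin d) F) : F := by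
  classical exact (Matrix.of fun α β : Mon d M => coeff β.1 (p α)).det

/-- the linear substitution `X j ↦ ∑ i, g i j X i` -/
def sbs {F : Type} [Field F] {d : ℕ} (g : Matrix (Fin d) (Fin d) F) : MvPolynomial (Fin d) F →ₐ[F] MvPolynomial (Fin d) F :=
  aeval fun j => ∑ i, C (g i j) * X i

/-- the weight of the determinant of the symmetric power -/
def IsWeight (d M a : ℕ) : Prop :=
  ∀ (F : Type) [Field F] [CharZero F] (g : Matrix (Fin d) (Fin d) F), g.det ≠ 0 → ∀ p : Mon d M → MvPolynomial (Fin d) F,
    (∀ α, (p α).IsHomogeneous M) → cdet (fun α => sbs g (p α)) = g.det ^ a * cdet p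

/-- A family of symmetric differentials of degree `M`: for every frame `e` of `d` derivations homogeneous polynomials of degree `M` in the coordinates with
respect to the frame. -/
structure SymFam (K : Type) [Field K] [Algebra ℂ K] (k d M : ℕ) (ι : Type) where
  /-- the polynomials -/
  fn : ι → (Fin d → Derivation ℂ K K) → MvPolynomial (Fin d) K
  hom : ∀ i e, (fn i e).IsHomogeneous M
  subst : ∀ i e (g : Matrix (Fin d) (Fin d) K), fn i (fun r => ∑ s, g r s • e s) = sbs g (fn i e)
  reg : ∀ i e (E : PrimeDivisorOver K k), (∀ j f, 0 ≤ E.ord f → 0 ≤ E.ord (e j f)) → ∀ α, 0 ≤ E.ord (coeff α (fn i e))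

/-! ## relations -/

section

variable {K : Type} [Field K] [Algebra ℂ K] {d M : ℕ} {ι : Type}

/-- The polynomials `p i` are combinations of those with the indices `I α`, a basis, with coefficients which are killed by the derivations `e j`. -/
structure Rel (e : Fin d → Derivation ℂ K K) (p : ι → MvPolynomial (Fin d) K) (I : Mon d M → ι) (c : ι → Mon d M → K) : Prop where
  hom : ∀ i, (p i).IsHomogeneous M
  ne : cdet (fun α => p (I α)) ≠ 0
  eq : ∀ i, p i = ∑ α, C (c i α) * p (I α)
  ker : ∀ i α j, e j (c i α) = 0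

end

/-! ## the polynomials of the symmetric differentials in a frame -/

section

variable {N : ℕ} {P Q : Ideal (MvPolynomial (Fin (N + 1)) ℂ)} [Q.IsPrime] {J m : ℕ} {θ : Fin J → Pool.Agent.GG.SymSec P m} {d : ℕ}

/-- the tangent vector `∑ X j e_j` in the chart `x_a = 1` -/
def tv (Q : Ideal (MvPolynomial (Fin (N + 1)) ℂ)) [Q.IsPrime] (a : Fin (N + 1)) (e : Fin d → Derivation ℂ (FunField Q) (FunField Q)) :
    Pool.Agent.GG.Ph N → MvPolynomial (Fin d) (FunField Q) :=
  Sum.elim (fun b => C (ratio Q b a)) fun b => ∑ j, X j * C (e j (ratio Q b a))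

/-- `θ k` at this tangent vector -/
def psi (f : Pool.Agent.GG.Frame (m := fun _ => m) θ) (Q : Ideal (MvPolynomial (Fin (N + 1)) ℂ)) [Q.IsPrime] (a : Fin (N + 1)) (k : Fin J)
    (e : Fin d → Derivation ℂ (FunField Q) (FunField Q)) : MvPolynomial (Fin d) (FunField Q) :=
  aeval (tv Q a e) (f.A a k)

end

end Pool.Agent.GB
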