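import Pool.Agent.GB.Trf
import Pool.Agent.GB.Defs

/-!
# GB Psi: the polynomials of symmetric differentials in a frame

PROOF.  `Q_j (x) = 0` and `dQ_j (x) v = 0` at `tv Q a e` (a derivation applied to `Q_j (x_b / x_a) = 0`), `x_a = 1`, `v_a = 0`.
`hom`: the identity `A (x, 2 v) = 2^m A (x, v)` holds at all complex tangent vectors in the chart `x_a = 1` (`Frame.hA`, `SymSec.smul`), so at the point
`tv Q a e` with values in `K[X]` (`Trf.transfer`); compare the coefficients.  `subst`: composition of `aeval`s.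
`reg`: `H17R.exists_center`: a chart `c` with `E.ord (x_b / x_c) ≥ 0` for all `b`; there the coefficients of `psi f Q c i e` are values of polynomials over `ℂ` at
elements with `E.ord ≥ 0`; `psi f Q c i e = psi f Q a i e` by `Trf.transfer` for `A_a (x y, v y - v_a y^2 x) = A_c (x, v)` on `x_c = 1`, `x_a y = 1` (`SymSec.scale`, `add_smul`).
-/

set_option autoImplicit false

open MvPolynomial
open Pool.Agent.H17LG.Variety (FunField ratio)
open Pool.Agent.H62.FC (Homog)
open Pool.Agent.H13.SM (conTan cone)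
open Pool.Agent.H17GT (coordFun)
open Pool.Agent.H23.Fano (PrimeDivisorOver)

namespace Pool.Agent.GB

variable {N : ℕ} {P Q : Ideal (MvPolynomial (Fin (N + 1)) ℂ)} {J m : ℕ} {θ : Fin J → Pool.Agent.GG.SymSec P m}

/-! ## auxiliary facts -/

/-- the chain rule -/
private theorem Psi_chain {σ : Type} [Fintype σ] {K : Type} [Field K] [Algebra ℂ K] (D : Derivation ℂ K K) (y : σ → K) (p : MvPolynomial σ ℂ) :
    D (aeval y p) = ∑ b, aeval y (pderiv b p) * D (y b) := by
  classical
  induction p using MvPolynomial.induction_on with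
  | C a =>
    rw [aeval_C, D.map_algebraMap]
    refine (Finset.sum_eq_zero fun b _ => ?_).symm
    rw [pderiv_C, map_zero, zero_mul]
  | add p q hp hq =>
    rw [map_add, map_add, hp, hq, ← Finset.sum_add_distrib]
    refine Finset.sum_congr rfl fun b _ => ?_
    rw [map_add, map_add, add_mul]
  | mul_X p i hp =>
    have h : ∀ b, aeval y (pderiv b (p * X i)) * D (y b) = (if b = i then aeval y p * D (y b) else 0) + y i * (aeval y (pderiv b p) * D (y b)) := by
      intro b
      rw [pderiv_mul, pderiv_X, map_add, map_mul, map_mul, aeval_X]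
      by_cases hb : b = i
      · subst hb
        rw [if_pos rfl, Pi.single_eq_same, map_one]
        ring
      · rw [if_neg hb, Pi.single_eq_of_ne (Ne.symm hb), map_zero]
        ring
    rw [map_mul, aeval_X, D.leibniz, hp, Finset.sum_congr rfl fun b _ => h b, Finset.sum_add_distrib, Finset.sum_ite_eq' Finset.univ i,
      if_pos (Finset.mem_univ _), ← Finset.mul_sum, smul_eq_mul, smul_eq_mul]

/-- the coefficients of the values of polynomials over `ℂ` -/
private theorem Psi_coeff {K : Type} [Field K] [Algebra ℂ K] {w d : ℕ} (E : PrimeDivisorOver K w) {σ : Type} (y : σ → MvPolynomial (Fin d) K)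
    (hy : ∀ s α, 0 ≤ E.ord (coeff α (y s))) (p : MvPolynomial σ ℂ) : ∀ α, 0 ≤ E.ord (coeff α (aeval y p)) := by
  classical
  induction p using MvPolynomial.induction_on with
  | C a =>
    intro α
    rw [aeval_C, IsScalarTower.algebraMap_apply ℂ K (MvPolynomial (Fin d) K), algebraMap_eq, coeff_C]
    split_ifs
    · exact E.ord_const a
    · rw [E.ord.map_zero]
      exact le_top
  | add p q hp hq =>
    intro α
    rw [map_add, coeff_add]
    exact (le_min (hp α) (hq α)).trans (E.ord.map_add _ _)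
  | mul_X p i hp =>
    intro α
    rw [map_mul, aeval_X, coeff_mul]
    refine E.ord.map_le_sum fun β _ => ?_
    rw [E.ord.map_mul]
    exact add_nonneg (hp _) (hy _ _)

/-- the substitution `X ↦ c X` -/
private theorem Psi_scale {K : Type} [Field K] {d : ℕ} (c : K) (p : MvPolynomial (Fin d) K) (α : Fin d →₀ ℕ) :
    coeff α (aeval (fun j => C c * X j : Fin d → MvPolynomial (Fin d) K) p) = c ^ (∑ j, α j) * coeff α p := by
  classical
  induction p using MvPolynomial.induction_on' with
  | monomial β r =>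
    have h1 : aeval (fun j => C c * X j : Fin d → MvPolynomial (Fin d) K) (monomial β r) = monomial β (c ^ (∑ j, β j) * r) := by
      rw [aeval_monomial, algebraMap_eq, Finsupp.prod_fintype _ _ (fun i => pow_zero _), monomial_eq (s := β) (a := c ^ (∑ j, β j) * r),
        Finsupp.prod_fintype _ _ (fun i => pow_zero _)]
      simp only [mul_pow, Finset.prod_mul_distrib]
      rw [Finset.prod_pow_eq_pow_sum, C_mul, C_pow]
      ring
    rw [h1, coeff_monomial, coeff_monomial]
    split_ifs with h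
    · rw [h]
    · rw [mul_zero]
  | add p q hp hq => rw [map_add, coeff_add, coeff_add, hp, hq, mul_add]

private theorem Psi_hg {d : ℕ} {G : MvPolynomial (Fin (N + 1)) ℂ} (hG : G.IsHomogeneous d) (c : ℂ) (x : Fin (N + 1) → ℂ) :
    eval (c • x) G = c ^ d * eval x G := by
  rw [eval_eq', eval_eq', Finset.mul_sum]
  refine Finset.sum_congr rfl fun m hm => ?_
  have h1 : ∏ i, (c • x) i ^ m i = c ^ d * ∏ i, x i ^ m i := by
    simp only [Pi.smul_apply, smul_eq_mul, mul_pow, Finset.prod_mul_distrib]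
    rw [Finset.prod_pow_eq_pow_sum]
    have h2 := hG (mem_support_iff.1 hm)
    rw [Finsupp.weight_apply, Finsupp.sum_fintype _ _ (by simp)] at h2
    simp only [Pi.one_apply, smul_eq_mul, mul_one] at h2
    rw [h2]
  rw [h1]
  ring

private theorem Psi_conTan (hQ : Homog Q) (c : ℂ) (x : Fin (N + 1) → ℂ) : conTan Q x ≤ conTan Q (c • x) := by
  intro v hv G hG
  have h1 : ∀ d, ∑ i, v i * eval (c • x) (pderiv i (homogeneousComponent d G)) = 0 := by
    intro d
    have h2 := hv _ (hQ G hG d)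
    have h4 : ∑ i, v i * eval (c • x) (pderiv i (homogeneousComponent d G)) =
        c ^ (d - 1) * ∑ i, v i * eval x (pderiv i (homogeneousComponent d G)) := by
      rw [Finset.mul_sum]
      refine Finset.sum_congr rfl fun i _ => ?_
      rw [Psi_hg ((homogeneousComponent_isHomogeneous d G).pderiv)]
      ring
    rw [h4, h2, mul_zero]
  have h5 : ∀ i, eval (c • x) (pderiv i G) = ∑ d ∈ Finset.range (G.totalDegree + 1),
      eval (c • x) (pderiv i (homogeneousComponent d G)) := by
    intro i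
    conv_lhs => rw [← sum_homogeneousComponent G]
    rw [map_sum, map_sum]
  simp only [h5, Finset.mul_sum]
  rw [Finset.sum_comm]
  exact Finset.sum_eq_zero fun d _ => h1 d

private theorem Psi_eval {σ τ : Type} (y : τ → ℂ) (g : σ → MvPolynomial τ ℂ) (p : MvPolynomial σ ℂ) :
    eval y (aeval g p) = eval (fun s => eval y (g s)) p := by
  induction p using MvPolynomial.induction_on with
  | C a => rw [aeval_C, algebraMap_eq, eval_C, eval_C]
  | add p q hp hq => rw [map_add, map_add, map_add, hp, hq]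
  | mul_X p i hp => rw [map_mul, map_mul, map_mul, hp, aeval_X, eval_X]

private theorem Psi_cone_le (hPQ : P ≤ Q) {x : Fin (N + 1) → ℂ} (hx : x ∈ cone Q) : x ∈ cone P := ⟨hx.1, fun G hG => hx.2 G (hPQ hG)⟩

private theorem Psi_conTan_le (hPQ : P ≤ Q) {x : Fin (N + 1) → ℂ} : conTan Q x ≤ conTan P x := fun _ hv G hG => hv G (hPQ hG)

/-! ## the equations -/

private theorem Psi_inl [Q.IsPrime] {a : Fin (N + 1)} {d : ℕ} (e : Fin d → Derivation ℂ (FunField Q) (FunField Q)) (q : MvPolynomial (Fin (N + 1)) ℂ) :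
    aeval (tv Q a e) (rename Sum.inl q) = C (aeval (fun b => ratio Q b a) q) := by
  rw [aeval_rename]
  induction q using MvPolynomial.induction_on with
  | C r => rw [aeval_C, aeval_C, IsScalarTower.algebraMap_apply ℂ (FunField Q) (MvPolynomial (Fin d) (FunField Q)), algebraMap_eq]
  | add p q hp hq => rw [map_add, map_add, map_add, hp, hq]
  | mul_X p i hp =>
    rw [map_mul, map_mul, map_mul, hp, aeval_X, aeval_X]
    rfl

private theorem Psi_zero [Q.IsPrime] (hQ : Homog Q) {a : Fin (N + 1)} (ha : X a ∉ Q) {q : MvPolynomial (Fin (N + 1)) ℂ} (hq : q ∈ Q) :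
    aeval (fun b => ratio Q b a) q = 0 := by
  have hc : coordFun Q a ≠ 0 := Pool.Agent.H17R.coordFun_ne_zero_iff.2 ha
  rw [← sum_homogeneousComponent q, map_sum]
  refine Finset.sum_eq_zero fun n _ => ?_
  exact (Pool.Agent.H17R.gen_eq_zero_iff hc (homogeneousComponent_isHomogeneous n q)).2 (hQ q hq n)

/-- the equations of the tangent bundle at the tangent vector `tv` -/
theorem tv_eqs [P.IsPrime] (f : Pool.Agent.GG.Frame (m := fun _ => m) θ) [Q.IsPrime] (hQ : Homog Q) (hPQ : P ≤ Q) {a : Fin (N + 1)} (ha : X a ∉ Q) {d : ℕ}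
    (e : Fin d → Derivation ℂ (FunField Q) (FunField Q)) :
    tv Q a e (Sum.inl a) = 1 ∧ tv Q a e (Sum.inr a) = 0 ∧ (∀ q ∈ Q, aeval (tv Q a e) (rename Sum.inl q) = 0) ∧
      ∀ q ∈ Q, aeval (tv Q a e) (∑ b, rename Sum.inl (pderiv b q) * X (Sum.inr b)) = 0 := by
  have hc : coordFun Q a ≠ 0 := Pool.Agent.H17R.coordFun_ne_zero_iff.2 ha
  have h1 : ratio Q a a = 1 := Pool.Agent.H17R.ratio_self hc
  refine ⟨?_, ?_, fun q hq => ?_, fun q hq => ?_⟩
  · show C (ratio Q a a) = _
    rw [h1, C_1]
  · show ∑ j, X j * C (e j (ratio Q a a)) = _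
    rw [h1]
    refine Finset.sum_eq_zero fun j _ => ?_
    rw [(e j).map_one_eq_zero, C_0, mul_zero]
  · rw [Psi_inl, Psi_zero hQ ha hq, C_0]
  · rw [map_sum]
    have h2 : ∀ b, aeval (tv Q a e) (rename Sum.inl (pderiv b q) * X (Sum.inr b)) =
        ∑ j, X j * C (aeval (fun b => ratio Q b a) (pderiv b q) * e j (ratio Q b a)) := by
      intro b
      rw [map_mul, Psi_inl, aeval_X]
      show C _ * ∑ j, X j * C (e j (ratio Q b a)) = _
      rw [Finset.mul_sum]
      refine Finset.sum_congr rfl fun j _ => ?_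
      rw [C_mul]
      ring
    rw [Finset.sum_congr rfl fun b _ => h2 b, Finset.sum_comm]
    refine Finset.sum_eq_zero fun j _ => ?_
    rw [← Finset.mul_sum, ← map_sum, ← Psi_chain (e j) (fun b => ratio Q b a) q, Psi_zero hQ ha hq, map_zero, C_0, mul_zero]

/-- the equations of the tangent vectors in the chart `x_c = 1` -/
private def Eqs (Q : Ideal (MvPolynomial (Fin (N + 1)) ℂ)) (c : Fin (N + 1)) : Set (MvPolynomial (Pool.Agent.GG.Ph N) ℂ) :=
  {s | s = X (Sum.inl c) - 1 ∨ (∃ q ∈ Q, s = rename Sum.inl q) ∨ ∃ q ∈ Q, s = ∑ b, rename Sum.inl (pderiv b q) * X (Sum.inr b)}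

private theorem Eqs_complex {c : Fin (N + 1)} {y : Pool.Agent.GG.Ph N → ℂ} (hy : ∀ s ∈ Eqs Q c, eval y s = 0) :
    (fun b => y (Sum.inl b)) ∈ cone Q ∧ y (Sum.inl c) = 1 ∧ (fun b => y (Sum.inr b)) ∈ conTan Q fun b => y (Sum.inl b) := by
  have h1 : y (Sum.inl c) = 1 := by
    have := hy _ (Or.inl rfl)
    rw [map_sub, eval_X, map_one] at this
    exact sub_eq_zero.1 this
  refine ⟨⟨fun h => ?_, fun q hq => ?_⟩, h1, fun q hq => ?_⟩
  · have := congrFun h c
    simp only [h1, Pi.zero_apply] at this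
    exact one_ne_zero this
  · have := hy _ (Or.inr (Or.inl ⟨q, hq, rfl⟩))
    rw [eval_rename] at this
    exact this
  · have := hy _ (Or.inr (Or.inr ⟨q, hq, rfl⟩))
    rw [map_sum] at this
    rw [← this]
    refine Finset.sum_congr rfl fun b _ => ?_
    rw [map_mul, eval_rename, eval_X, mul_comm]
    rfl

private theorem Eqs_tv [P.IsPrime] (f : Pool.Agent.GG.Frame (m := fun _ => m) θ) [Q.IsPrime] (hQ : Homog Q) (hPQ : P ≤ Q) {c : Fin (N + 1)} (hc : X c ∉ Q) {d : ℕ}
    (e : Fin d → Derivation ℂ (FunField Q) (FunField Q)) : ∀ s ∈ Eqs Q c, aeval (tv Q c e) s = 0 := by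
  obtain ⟨h1, -, h2, h3⟩ := tv_eqs f hQ hPQ hc e
  rintro s (rfl | ⟨q, hq, rfl⟩ | ⟨q, hq, rfl⟩)
  · rw [map_sub, aeval_X, h1, map_one, sub_self]
  · exact h2 q hq
  · exact h3 q hq

/-! ## homogeneity -/

private theorem Psi_hom [P.IsPrime] (f : Pool.Agent.GG.Frame (m := fun _ => m) θ) [Q.IsPrime] (hQ : Homog Q) (hPQ : P ≤ Q) {a : Fin (N + 1)} (ha : X a ∉ Q)
    {d : ℕ} (i : Fin J) (e : Fin d → Derivation ℂ (FunField Q) (FunField Q)) : (psi f Q a i e).IsHomogeneous m := by
  set g : Pool.Agent.GG.Ph N → MvPolynomial (Pool.Agent.GG.Ph N) ℂ := Sum.elim (fun b => X (Sum.inl b)) (fun b => C 2 * X (Sum.inr b)) with hg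
  have key : aeval (tv Q a e) (aeval g (f.A a i) - C (2 ^ m) * f.A a i) = 0 := by
    refine transfer (S := Eqs Q a) (fun y hy => ?_) _ (Eqs_tv f hQ hPQ ha e)
    obtain ⟨h1, h2, h3⟩ := Eqs_complex hy
    have h4 := f.hA a i _ (Psi_cone_le hPQ h1) h2 _ (Psi_conTan_le hPQ h3)
    have h5 := f.hA a i _ (Psi_cone_le hPQ h1) h2 _ ((conTan P _).smul_mem 2 (Psi_conTan_le hPQ h3))
    rw [(θ i).smul _ (Psi_cone_le hPQ h1) _ (Psi_conTan_le hPQ h3) 2, h4] at h5
    have h6 : eval y (aeval g (f.A a i)) = eval (Pool.Agent.GG.pt (fun b => y (Sum.inl b)) ((2 : ℂ) • fun b => y (Sum.inr b))) (f.A a i) := by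
      rw [Psi_eval]
      congr 2
      funext s
      cases s with
      | inl b => rw [hg, Sum.elim_inl, eval_X]; rfl
      | inr b => rw [hg, Sum.elim_inr, map_mul, eval_C, eval_X]; rfl
    have h7 : eval y (f.A a i) = eval (Pool.Agent.GG.pt (fun b => y (Sum.inl b)) fun b => y (Sum.inr b)) (f.A a i) := by
      congr 2
      funext s
      cases s <;> rfl
    rw [map_sub, map_mul, eval_C, h6, h7, ← h5, sub_self]
  have h2 : aeval (fun j => C 2 * X j : Fin d → MvPolynomial (Fin d) (FunField Q)) (psi f Q a i e) = C (2 ^ m) * psi f Q a i e := by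
    have h3 : aeval (tv Q a e) (aeval g (f.A a i)) =
        aeval (fun j => C 2 * X j : Fin d → MvPolynomial (Fin d) (FunField Q)) (psi f Q a i e) := by
      have h4 : ∀ p : MvPolynomial (Pool.Agent.GG.Ph N) ℂ, aeval (fun j => C 2 * X j : Fin d → MvPolynomial (Fin d) (FunField Q)) (aeval (tv Q a e) p) =
          aeval (fun s => aeval (fun j => C 2 * X j : Fin d → MvPolynomial (Fin d) (FunField Q)) (tv Q a e s)) p := by
        intro p
        exact DFunLike.congr_fun (comp_aeval (tv Q a e) ((aeval (fun j => C 2 * X j : Fin d → MvPolynomial (Fin d) (FunField Q))).restrictScalars ℂ)) p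
      unfold psi
      rw [h4, ← AlgHom.comp_apply, comp_aeval]
      congr 2
      funext s
      cases s with
      | inl b =>
        rw [hg, Sum.elim_inl, aeval_X]
        show C (ratio Q b a) = aeval _ (C (ratio Q b a))
        rw [aeval_C, algebraMap_eq]
      | inr b =>
        rw [hg, Sum.elim_inr, map_mul, aeval_C, aeval_X]
        show _ * ∑ j, X j * C (e j (ratio Q b a)) = aeval _ (∑ j, X j * C (e j (ratio Q b a)))
        rw [map_sum, Finset.mul_sum]
        refine Finset.sum_congr rfl fun j _ => ?_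
        rw [map_mul, aeval_X, aeval_C, algebraMap_eq, IsScalarTower.algebraMap_apply ℂ (FunField Q) (MvPolynomial (Fin d) (FunField Q)), algebraMap_eq,
          map_ofNat]
        ring
    rw [← h3]
    rw [map_sub, map_mul, sub_eq_zero] at key
    rw [key, aeval_C, IsScalarTower.algebraMap_apply ℂ (FunField Q) (MvPolynomial (Fin d) (FunField Q)), algebraMap_eq, map_pow, map_ofNat]
    rfl
  intro α hα
  have h3 := congrArg (coeff α) h2
  rw [Psi_scale, coeff_C_mul] at h3
  have h4 : (2 : FunField Q) ^ (∑ j, α j) = 2 ^ m := mul_right_cancel₀ hα h3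
  have h5 : CharZero (FunField Q) := charZero_of_injective_algebraMap (algebraMap ℂ (FunField Q)).injective
  have h6 : ∑ j, α j = m := by
    have : (2 : ℕ) ^ (∑ j, α j) = 2 ^ m := by exact_mod_cast h4
    exact Nat.pow_right_injective le_rfl this
  rw [Finsupp.weight_apply, Finsupp.sum_fintype _ _ (by simp)]
  simpa using h6

/-! ## substitutions -/

private theorem Psi_subst [Q.IsPrime] (f : Pool.Agent.GG.Frame (m := fun _ => m) θ) {a : Fin (N + 1)} {d : ℕ} (i : Fin J)
    (e : Fin d → Derivation ℂ (FunField Q) (FunField Q)) (g : Matrix (Fin d) (Fin d) (FunField Q)) :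
    psi f Q a i (fun r => ∑ s, g r s • e s) = sbs g (psi f Q a i e) := by
  have h4 : ∀ p : MvPolynomial (Pool.Agent.GG.Ph N) ℂ, sbs g (aeval (tv Q a e) p) = aeval (fun s => sbs g (tv Q a e s)) p := by
    intro p
    exact DFunLike.congr_fun (comp_aeval (tv Q a e) ((sbs g).restrictScalars ℂ)) p
  unfold psi
  rw [h4]
  congr 2
  funext s
  cases s with
  | inl b =>
    show C (ratio Q b a) = sbs g (C (ratio Q b a))
    unfold sbs
    rw [aeval_C, algebraMap_eq]
  | inr b =>
    show ∑ r, X r * C ((∑ s, g r s • e s) (ratio Q b a)) = sbs g (∑ j, X j * C (e j (ratio Q b a)))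
    unfold sbs
    have h5 : ∀ r, X r * C ((∑ s, g r s • e s) (ratio Q b a)) = ∑ s, C (g r s) * X r * C (e s (ratio Q b a)) := by
      intro r
      have h6 : (∑ s, g r s • e s) (ratio Q b a) = ∑ s, g r s * e s (ratio Q b a) := by
        rw [← Derivation.coeFnAddMonoidHom_apply, map_sum, Finset.sum_apply]
        rfl
      rw [h6, map_sum, Finset.mul_sum]
      refine Finset.sum_congr rfl fun s _ => ?_
      rw [C_mul]
      ring
    rw [Finset.sum_congr rfl fun r _ => h5 r, Finset.sum_comm, map_sum]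
    refine Finset.sum_congr rfl fun j _ => ?_
    rw [map_mul, aeval_X, aeval_C, algebraMap_eq, Finset.sum_mul]

/-! ## change of the chart -/

private theorem Psi_change [P.IsPrime] (f : Pool.Agent.GG.Frame (m := fun _ => m) θ) [Q.IsPrime] (hQ : Homog Q) (hPQ : P ≤ Q) {a c : Fin (N + 1)}
    (ha : X a ∉ Q) (hc : X c ∉ Q) {d : ℕ} (i : Fin J) (e : Fin d → Derivation ℂ (FunField Q) (FunField Q)) : psi f Q a i e = psi f Q c i e := by
  set g : Pool.Agent.GG.Ph N → MvPolynomial (Pool.Agent.GG.Ph N ⊕ Unit) ℂ := Sum.elim (fun b => X (Sum.inr ()) * X (Sum.inl (Sum.inl b)))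
    (fun b => X (Sum.inr ()) * X (Sum.inl (Sum.inr b)) + -(X (Sum.inr ()) * X (Sum.inl (Sum.inr a))) * (X (Sum.inr ()) * X (Sum.inl (Sum.inl b)))) with hg
  have hca : coordFun Q a ≠ 0 := Pool.Agent.H17R.coordFun_ne_zero_iff.2 ha
  have hcc : coordFun Q c ≠ 0 := Pool.Agent.H17R.coordFun_ne_zero_iff.2 hc
  have hra : ∀ b, ratio Q b a = ratio Q c a * ratio Q b c := by
    intro b
    apply Subtype.ext
    change coordFun Q b / coordFun Q a = coordFun Q c / coordFun Q a * (coordFun Q b / coordFun Q c)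
    rw [div_mul_div_comm, mul_comm (coordFun Q c) (coordFun Q b), mul_div_mul_right _ _ hcc]
  have hrr : ratio Q c a * ratio Q a c = 1 := by rw [← hra a, Pool.Agent.H17R.ratio_self hca]
  set Y : Pool.Agent.GG.Ph N ⊕ Unit → MvPolynomial (Fin d) (FunField Q) := Sum.elim (tv Q c e) (fun _ => C (ratio Q c a)) with hY
  have key : aeval Y (rename Sum.inl (f.A c i) - aeval g (f.A a i)) = 0 := by
    refine transfer (S := {s | s = X (Sum.inr ()) * X (Sum.inl (Sum.inl a)) - 1 ∨ ∃ t ∈ Eqs Q c, s = rename Sum.inl t}) (fun y hy => ?_) _ ?_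
    · have hy1 : ∀ s ∈ Eqs Q c, eval (fun s => y (Sum.inl s)) s = 0 := by
        intro s hs
        have := hy _ (Or.inr ⟨s, hs, rfl⟩)
        rw [eval_rename] at this
        exact this
      obtain ⟨h1, h2, h3⟩ := Eqs_complex hy1
      have h0 : y (Sum.inr ()) * y (Sum.inl (Sum.inl a)) = 1 := by
        have := hy _ (Or.inl rfl)
        rw [map_sub, map_mul, eval_X, eval_X, map_one] at this
        exact sub_eq_zero.1 this
      obtain ⟨t, ht⟩ : ∃ t : ℂ, t = y (Sum.inr ()) := ⟨_, rfl⟩
      obtain ⟨x, hx⟩ : ∃ x : Fin (N + 1) → ℂ, x = fun b => y (Sum.inl (Sum.inl b)) := ⟨_, rfl⟩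
      obtain ⟨v, hv⟩ : ∃ v : Fin (N + 1) → ℂ, v = fun b => y (Sum.inl (Sum.inr b)) := ⟨_, rfl⟩
      have h1' : x ∈ cone Q := by rw [hx]; exact h1
      have h2' : x c = 1 := by rw [hx]; exact h2
      have h3' : v ∈ conTan Q x := by rw [hx, hv]; exact h3
      have h0' : t * x a = 1 := by rw [hx, ht]; exact h0
      have ht0 : t ≠ 0 := left_ne_zero_of_mul_eq_one h0'
      have hx' : t • x ∈ cone Q := ⟨smul_ne_zero ht0 h1'.1, Pool.Agent.H13.SM.cone_smul hQ h1'.2 t⟩
      have hv' : t • v ∈ conTan Q (t • x) := (conTan Q _).smul_mem t (Psi_conTan hQ t x h3')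
      have hxx : t • x ∈ conTan Q (t • x) := fun _ h => Pool.Agent.H13.SM.euler hQ hx'.2 h
      have hw' : t • v + (-(t * v a)) • (t • x) ∈ conTan Q (t • x) := (conTan Q _).add_mem hv' ((conTan Q _).smul_mem _ hxx)
      have e1 : (θ i).toFun (t • x) (t • v + (-(t * v a)) • (t • x)) = (θ i).toFun x v := by
        rw [(θ i).add_smul _ (Psi_cone_le hPQ hx') _ (Psi_conTan_le hPQ hv'),
          (θ i).scale _ (Psi_cone_le hPQ h1') _ (Psi_conTan_le hPQ h3') _ ht0]
      have e2 := f.hA a i _ (Psi_cone_le hPQ hx') (by rw [Pi.smul_apply, smul_eq_mul]; exact h0') _ (Psi_conTan_le hPQ hw')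
      have e3 := f.hA c i _ (Psi_cone_le hPQ h1') h2' _ (Psi_conTan_le hPQ h3')
      have h6 : eval y (aeval g (f.A a i)) = eval (Pool.Agent.GG.pt (t • x) (t • v + (-(t * v a)) • (t • x))) (f.A a i) := by
        rw [Psi_eval]
        congr 2
        funext s
        cases s with
        | inl b =>
          rw [hg, Sum.elim_inl, map_mul, eval_X, eval_X, ht, hx]
          rfl
        | inr b =>
          rw [hg, Sum.elim_inr, map_add, map_mul, map_mul, map_neg, map_mul, map_mul, eval_X, eval_X, eval_X, eval_X, ht, hx, hv]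
          rfl
      have h7 : eval y (rename Sum.inl (f.A c i)) = eval (Pool.Agent.GG.pt x v) (f.A c i) := by
        rw [eval_rename]
        congr 2
        funext s
        cases s with
        | inl b => rw [hx]; rfl
        | inr b => rw [hv]; rfl
      rw [map_sub, h6, h7, ← e2, ← e3, e1, sub_self]
    · rintro s (rfl | ⟨t, ht, rfl⟩)
      · rw [map_sub, map_mul, aeval_X, aeval_X, map_one]
        show C (ratio Q c a) * C (ratio Q a c) - 1 = 0
        rw [← C_mul, hrr, C_1, sub_self]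
      · rw [aeval_rename]
        exact Eqs_tv f hQ hPQ hc e t ht
  rw [map_sub, sub_eq_zero, aeval_rename] at key
  have h1 : psi f Q c i e = aeval (Y ∘ Sum.inl) (f.A c i) := rfl
  rw [h1, key, ← AlgHom.comp_apply, comp_aeval]
  unfold psi
  congr 2
  funext s
  cases s with
  | inl b =>
    rw [hg, Sum.elim_inl, map_mul, aeval_X, aeval_X]
    show C (ratio Q b a) = C (ratio Q c a) * C (ratio Q b c)
    rw [← C_mul, ← hra]
  | inr b =>
    rw [hg, Sum.elim_inr, map_add, map_mul, map_mul, map_neg, map_mul, map_mul, aeval_X, aeval_X, aeval_X, aeval_X]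
    show ∑ j, X j * C (e j (ratio Q b a)) = C (ratio Q c a) * (∑ j, X j * C (e j (ratio Q b c))) +
      -(C (ratio Q c a) * ∑ j, X j * C (e j (ratio Q a c))) * (C (ratio Q c a) * C (ratio Q b c))
    have h2 : ∀ j, e j (ratio Q b a) = ratio Q c a * e j (ratio Q b c) + -(ratio Q c a * e j (ratio Q a c)) * (ratio Q c a * ratio Q b c) := by
      intro j
      have h3 := (e j).leibniz (ratio Q c a) (ratio Q b c)
      have h4 := (e j).leibniz (ratio Q c a) (ratio Q a c)
      rw [hrr, (e j).map_one_eq_zero, smul_eq_mul, smul_eq_mul] at h4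
      rw [← hra b, smul_eq_mul, smul_eq_mul] at h3
      have h5 : e j (ratio Q c a) = -(ratio Q c a * e j (ratio Q a c)) * ratio Q c a := by
        linear_combination -ratio Q c a * h4 + (-e j (ratio Q c a)) * hrr
      rw [h3, h5]
      ring
    rw [Finset.mul_sum, Finset.mul_sum, ← Finset.sum_neg_distrib, Finset.sum_mul, ← Finset.sum_add_distrib]
    refine Finset.sum_congr rfl fun j _ => ?_
    rw [h2 j, C_add, C_mul, C_mul, C_neg, C_mul, C_mul]
    ring

private theorem Psi_reg [P.IsPrime] (f : Pool.Agent.GG.Frame (m := fun _ => m) θ) [Q.IsPrime] (hQ : Homog Q) (hPQ : P ≤ Q) {a : Fin (N + 1)}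
    (ha : X a ∉ Q) {k d : ℕ} (i : Fin J) (e : Fin d → Derivation ℂ (FunField Q) (FunField Q)) (E : PrimeDivisorOver (FunField Q) k)
    (he : ∀ j f, 0 ≤ E.ord f → 0 ≤ E.ord (e j f)) : ∀ α, 0 ≤ E.ord (coeff α (psi f Q a i e)) := by
  classical
  obtain ⟨c, hc, h⟩ := Pool.Agent.H17R.exists_center E (Pool.Agent.H17R.coordFun_ne_zero_iff.2 ha)
  rw [Psi_change f hQ hPQ ha (Pool.Agent.H17R.coordFun_ne_zero_iff.1 hc) i e]
  refine Psi_coeff E _ (fun s α => ?_) _
  cases s with
  | inl b =>
    show 0 ≤ E.ord (coeff α (C (ratio Q b c)))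
    rw [coeff_C]
    split_ifs
    · exact h b
    · rw [E.ord.map_zero]
      exact le_top
  | inr b =>
    show 0 ≤ E.ord (coeff α (∑ j, X j * C (e j (ratio Q b c))))
    rw [coeff_sum]
    refine E.ord.map_le_sum fun j _ => ?_
    rw [mul_comm, coeff_C_mul, coeff_X]
    split_ifs
    · rw [mul_one]
      exact he j _ (h b)
    · rw [mul_zero, E.ord.map_zero]
      exact le_top

theorem exists_psiFam [P.IsPrime] (f : Pool.Agent.GG.Frame (m := fun _ => m) θ) [Q.IsPrime] (hQ : Homog Q) (hPQ : P ≤ Q) {a : Fin (N + 1)} (ha : X a ∉ Q)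
    (k d : ℕ) : ∃ Ψ : SymFam (FunField Q) k d m (Fin J), ∀ i e, Ψ.fn i e = psi f Q a i e :=
  ⟨{ fn := fun i e => psi f Q a i e
     hom := fun i e => Psi_hom f hQ hPQ ha i e
     subst := fun i e g => Psi_subst f i e g
     reg := fun i e E he => Psi_reg f hQ hPQ ha i e E he }, fun _ _ => rfl⟩

end Pool.Agent.GB
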