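import Pool.Agent.GB.Defs

/-!
# GB Lat: adapted coordinates at a prime divisor

PROOF.  `A i l = dualDer b i (φ l)`, a `k × κ` matrix of rank `κ` (the `dφ l` are independent, `A` are their coordinates in the basis `b`).  Among the
bijections `σ` with `det (A (σ (inr i)) l) ≠ 0` choose one with `E.ord` of this determinant minimal.  Cramer: the row `σ (inl j)` is `∑ i, n j i • (row σ (inr i))`
with `n j i =` (determinant with the row `i` replaced) `/` (determinant), the numerator is `0` or the determinant of `σ ∘ swap (inl j) (inr i)`: `E.ord ≥ 0`.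
-/

set_option autoImplicit false

open MvPolynomial
open Pool.Agent.H23 (dualDer)
open Pool.Agent.H23.Fano (PrimeDivisorOver Form)

namespace Pool.Agent.GB

/-- independent rows of a matrix with independent columns -/
private theorem exists_rows {K : Type} [Field K] {k d κ : ℕ} (hk : d + κ = k) (A : Fin k → Fin κ → K)
    (hA : LinearIndependent K fun l i => A i l) :
    ∃ σ : Fin d ⊕ Fin κ ≃ Fin k, (Matrix.of fun i l => A (σ (Sum.inr i)) l).det ≠ 0 := by
  classical
  -- the rows span
  have hrank : (Matrix.of A).rank = κ := by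
    have h1 : LinearIndependent K (Matrix.of A).col := hA
    simpa using h1.rank_matrix
  have hspan : Submodule.span K (Set.range A) = ⊤ := by
    apply Submodule.eq_top_of_finrank_eq
    have h2 := Matrix.rank_eq_finrank_span_row (Matrix.of A)
    rw [hrank] at h2
    have h3 : Module.finrank K (Fin κ → K) = κ := by simp
    rw [h3]
    exact h2.symm
  obtain ⟨ι, a, ha, hs, hli⟩ := exists_linearIndependent' K A
  have hsp : ⊤ ≤ Submodule.span K (Set.range (A ∘ a)) := by rw [hs, hspan]
  let b := Module.Basis.mk hli hsp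
  have : Finite ι := Finite.of_injective a ha
  have : Fintype ι := Fintype.ofFinite ι
  have hcard : Fintype.card ι = κ := by
    have := Module.finrank_eq_card_basis b
    simpa using this.symm
  let e : Fin κ ≃ ι := (Fintype.equivFinOfCardEq hcard).symm
  -- the injection of the indices
  let r : Fin κ → Fin k := fun i => a (e i)
  have hr : Function.Injective r := ha.comp e.injective
  have hli' : LinearIndependent K fun i => A (r i) := hli.comp e e.injective
  -- extend it to a bijection
  have hc : Fintype.card {x : Fin k // x ∉ Set.range r} = d := by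
    have h1 : Fintype.card {x : Fin k // x ∈ Set.range r} = κ := by
      rw [← Fintype.card_congr (Equiv.ofInjective r hr)]
      simp
    have h2 := Fintype.card_subtype_compl (fun x : Fin k => x ∈ Set.range r)
    rw [h1, Fintype.card_fin] at h2
    rw [h2]
    omega
  let e₁ : Fin κ ≃ {x : Fin k // x ∈ Set.range r} := Equiv.ofInjective r hr
  let e₂ : Fin d ≃ {x : Fin k // x ∉ Set.range r} := (Fintype.equivFinOfCardEq hc).symm
  let σ : Fin d ⊕ Fin κ ≃ Fin k :=
    ((Equiv.sumCongr e₂ e₁).trans (Equiv.sumComm _ _)).trans (Equiv.sumCompl fun x => x ∈ Set.range r)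
  refine ⟨σ, ?_⟩
  have hσ : ∀ i, σ (Sum.inr i) = r i := fun i => rfl
  have h1 : (Matrix.of fun i l => A (σ (Sum.inr i)) l) = Matrix.of fun i l => A (r i) l := by
    ext i l
    simp only [Matrix.of_apply, hσ]
  rw [h1]
  intro h0
  have h2 : LinearIndependent K (Matrix.of fun i l => A (r i) l).row := hli'
  rw [Matrix.linearIndependent_rows_iff_isUnit, Matrix.isUnit_iff_isUnit_det, isUnit_iff_ne_zero] at h2
  exact h2 h0

theorem exists_lat {K : Type} [Field K] [Algebra ℂ K] {k d κ : ℕ} (hk : d + κ = k) {E : PrimeDivisorOver K k}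
    {b : Module.Basis (Fin k) K Ω[K⁄ℂ]} {φ : Fin κ → K} (hφ : LinearIndependent K fun i => KaehlerDifferential.D ℂ K (φ i)) :
    ∃ (σ : Fin d ⊕ Fin κ ≃ Fin k) (n : Fin d → Fin κ → K), (∀ j i, 0 ≤ E.ord (n j i)) ∧
      (Matrix.of fun i l => dualDer b (σ (Sum.inr i)) (φ l)).det ≠ 0 ∧
      ∀ j l, dualDer b (σ (Sum.inl j)) (φ l) = ∑ i, n j i * dualDer b (σ (Sum.inr i)) (φ l) := by
  classical
  have hA : LinearIndependent K fun (l : Fin κ) (i : Fin k) => dualDer b i (φ l) := by
    have h1 := hφ.map' (b.equivFun : Ω[K⁄ℂ] →ₗ[K] (Fin k → K)) (LinearEquiv.ker _)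
    exact h1
  obtain ⟨σ₀, hσ₀⟩ := exists_rows hk (fun i l => dualDer b i (φ l)) hA
  -- the choice of a minimal minor
  let S : Finset (Fin d ⊕ Fin κ ≃ Fin k) :=
    Finset.univ.filter fun σ => (Matrix.of fun i l => dualDer b (σ (Sum.inr i)) (φ l)).det ≠ 0
  obtain ⟨σ, hσS, hmin⟩ := S.exists_min_image
    (fun σ => E.ord (Matrix.of fun i l => dualDer b (σ (Sum.inr i)) (φ l)).det)
    ⟨σ₀, Finset.mem_filter.2 ⟨Finset.mem_univ _, hσ₀⟩⟩
  have hσ : (Matrix.of fun i l => dualDer b (σ (Sum.inr i)) (φ l)).det ≠ 0 := (Finset.mem_filter.1 hσS).2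
  set B : Matrix (Fin κ) (Fin κ) K := Matrix.of fun i l => dualDer b (σ (Sum.inr i)) (φ l) with hB
  refine ⟨σ, fun j i => (B.updateRow i fun l => dualDer b (σ (Sum.inl j)) (φ l)).det / B.det, ?_, hσ, ?_⟩
  · intro j i
    by_cases h0 : (B.updateRow i fun l => dualDer b (σ (Sum.inl j)) (φ l)).det = 0
    · show 0 ≤ E.ord (_ / B.det)
      rw [h0, zero_div, AddValuation.map_zero]
      exact le_top
    · have h1 : (Matrix.of fun i' l => dualDer b ((Equiv.swap (Sum.inl j) (Sum.inr i)).trans σ (Sum.inr i')) (φ l)) =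
          B.updateRow i fun l => dualDer b (σ (Sum.inl j)) (φ l) := by
        ext i' l
        rw [Matrix.updateRow_apply, Matrix.of_apply, Equiv.trans_apply]
        by_cases hi : i' = i
        · subst hi
          rw [Equiv.swap_apply_right, if_pos rfl]
        · rw [if_neg hi, Equiv.swap_apply_of_ne_of_ne (by simp) (by simpa using hi), hB, Matrix.of_apply]
      have h2 := hmin ((Equiv.swap (Sum.inl j) (Sum.inr i)).trans σ)
        (Finset.mem_filter.2 ⟨Finset.mem_univ _, by rw [h1]; exact h0⟩)
      simp only [h1] at h2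
      have h3 : E.ord ((B.updateRow i fun l => dualDer b (σ (Sum.inl j)) (φ l)).det / B.det) + E.ord B.det =
          E.ord (B.updateRow i fun l => dualDer b (σ (Sum.inl j)) (φ l)).det := by
        rw [← AddValuation.map_mul, div_mul_cancel₀ _ hσ]
      have h4 : E.ord B.det ≠ ⊤ := by
        intro h
        exact hσ ((AddValuation.top_iff _).1 h)
      have h5 : (0 : WithTop ℤ) + E.ord B.det ≤
          E.ord ((B.updateRow i fun l => dualDer b (σ (Sum.inl j)) (φ l)).det / B.det) + E.ord B.det := by
        rw [h3, zero_add]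
        exact h2
      exact (WithTop.add_le_add_iff_right h4).1 h5
  · intro j l
    have h1 := congrFun (Matrix.mulVec_cramer B.transpose fun l => dualDer b (σ (Sum.inl j)) (φ l)) l
    rw [Matrix.mulVec, dotProduct, Matrix.det_transpose, Pi.smul_apply, smul_eq_mul] at h1
    have h2 : dualDer b (σ (Sum.inl j)) (φ l) = (∑ i, B.transpose l i *
        (Matrix.cramer B.transpose fun l => dualDer b (σ (Sum.inl j)) (φ l)) i) / B.det := by
      rw [h1, mul_div_cancel_left₀ _ hσ]
    rw [h2, Finset.sum_div]
    refine Finset.sum_congr rfl fun i _ => ?_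
    rw [Matrix.cramer_transpose_apply, Matrix.transpose_apply, hB, Matrix.of_apply]
    ring

end Pool.Agent.GB
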