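import Pool.Agent.GB.Defs
import Pool.Agent.GB.Lat
import Pool.Agent.GB.Inv

/-!
# GB Reg: the determinants are pluricanonical forms

PROOF.  `E`, `b` with `DC E b`; `φ_i = s_(i+1) / s_0`.  `Lat.exists_lat`: `σ`, `n`.  Frame at `E`: `e'_j = dualDer b (σ (inl j)) - ∑ i, n j i • dualDer b (σ (inr i))`,
`h'_i = dualDer b (σ (inr i))`: they preserve `E.ord ≥ 0`, `e' φ = 0`, `vol z ε e' h' = ± jac z b` (unimodular change, permutation of the columns), `jac z b ≠ 0`.
`Inv.exists_change`, `Ψ.subst` and the weight: `cdet (Ψ e) (dph / vol)^a = cdet (Ψ e') (dph' / vol')^a`, `E.ord (cdet (Ψ e')) ≥ 0` (`Ψ.reg`).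
With `γ = jac z b`, `τ_i = s_i γ^l`: `E.ord τ_i ≥ 0`, `τ_0^2 ∂ φ_i = τ_0 ∂ τ_(i+1) - τ_(i+1) ∂ τ_0`, so `E.ord (τ_0^(2 κ) dph φ h') ≥ 0`.  The function in the statement times
`γ^(a + 2 κ a l)` is `± cdet (Ψ e') (τ_0^(2 κ) dph φ h')^a`.
-/

set_option autoImplicit false

open MvPolynomial
open Pool.Agent.H23 (dualDer)
open Pool.Agent.H23.Fano (PrimeDivisorOver Form)

namespace Pool.Agent.GB

private theorem reg_det_mem {K : Type} [Field K] [Algebra ℂ K] {ν : Type*} [Fintype ν] [DecidableEq ν] (O : Subalgebra ℂ K) (A : Matrix ν ν K)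
    (hA : ∀ i j, A i j ∈ O) : A.det ∈ O := by
  rw [Matrix.det_apply]
  refine sum_mem fun σ _ => ?_
  rw [Units.smul_def, zsmul_eq_mul]
  exact mul_mem (intCast_mem O _) (prod_mem fun i _ => hA _ _)

private theorem reg_der_sum {K : Type} [Field K] [Algebra ℂ K] {ν : Type*} (t : Finset ν) (D : ν → Derivation ℂ K K) (f : K) :
    (∑ i ∈ t, D i) f = ∑ i ∈ t, D i f := by
  classical
  induction t using Finset.induction_on with
  | empty => simp
  | insert i t hi ih => rw [Finset.sum_insert hi, Finset.sum_insert hi, Derivation.add_apply, ih]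

/-- the determinant of the values of a frame on `z` and the Jacobian -/
private theorem reg_jac_ne {K : Type} [Field K] [Algebra ℂ K] {k d κ : ℕ} {z : Fin k → K} {ε : Fin d ⊕ Fin κ ≃ Fin k} {e : Fin d → Derivation ℂ K K}
    {h : Fin κ → Derivation ℂ K K} (hv : vol z ε e h ≠ 0) (b : Module.Basis (Fin k) K Ω[K⁄ℂ]) : jac z b ≠ 0 := by
  classical
  have key : ∀ (δ : Derivation ℂ K K) (f : K), δ f = ∑ i, δ.liftKaehlerDifferential (b i) * dualDer b i f := by
    intro δ f
    have h1 : δ.liftKaehlerDifferential (KaehlerDifferential.D ℂ K f) = δ f := δ.liftKaehlerDifferential_comp_D f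
    have h2 := b.sum_repr (KaehlerDifferential.D ℂ K f)
    rw [← h1, ← h2, map_sum]
    refine Finset.sum_congr rfl fun i _ => ?_
    rw [map_smul, smul_eq_mul, mul_comm]
    rfl
  have hm : (Matrix.of fun r s : Fin d ⊕ Fin κ => (Sum.elim e h r) (z (ε s))) =
      (Matrix.of fun r r' : Fin d ⊕ Fin κ => (Sum.elim e h r).liftKaehlerDifferential (b (ε r'))) *
        (Matrix.of fun i j => dualDer b i (z j)).submatrix ε ε := by
    ext r s
    rw [Matrix.mul_apply, Matrix.of_apply, key (Sum.elim e h r) (z (ε s)), ← ε.sum_comp]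
    rfl
  intro hj
  apply hv
  unfold vol
  rw [hm, Matrix.det_mul, Matrix.det_submatrix_equiv_self]
  have : (Matrix.of fun i j => dualDer b i (z j)).det = 0 := hj
  rw [this, mul_zero]

theorem reg_cdet {K : Type} [Field K] [Algebra ℂ K] {k d κ M a l : ℕ} {ι : Type} {z : Fin k → K} (hz : IsTranscendenceBasis ℂ z)
    (Ψ : SymFam K k d M ι) (ha : IsWeight d M a) {s : Fin (κ + 1) → K} (hs0 : s 0 ≠ 0) (hs : ∀ i, RegF z l (s i))
    (hφ : LinearIndependent K fun i : Fin κ => KaehlerDifferential.D ℂ K (s i.succ / s 0))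
    {ε : Fin d ⊕ Fin κ ≃ Fin k} {e : Fin d → Derivation ℂ K K} {h : Fin κ → Derivation ℂ K K}
    (he : ∀ (j : Fin d) (i : Fin κ), e j (s i.succ / s 0) = 0) (hv : vol z ε e h ≠ 0) (I : Mon d M → ι) :
    RegF z (a + 2 * κ * a * l)
      (cdet (fun α => Ψ.fn (I α) e) * (dph (fun i : Fin κ => s i.succ / s 0) h / vol z ε e h) ^ a * s 0 ^ (2 * κ * a)) := by
  classical
  haveI : CharZero K := charZero_of_injective_algebraMap (algebraMap ℂ K).injective
  intro E b hDC
  obtain ⟨g, hg, hgr, hpres⟩ := id hDC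
  set φ : Fin κ → K := fun i => s i.succ / s 0 with hφdef
  have hk : d + κ = k := by simpa using Fintype.card_congr ε
  obtain ⟨σ, n, hn, hdet, hrel⟩ := exists_lat hk hφ (E := E) (b := b)
  have hγ : jac z b ≠ 0 := reg_jac_ne hv b
  set γ : K := jac z b with hγdef
  let O : Subalgebra ℂ K := Pool.Agent.H23.valRing E.ord E.ord_const
  have hO : ∀ f : K, f ∈ O ↔ 0 ≤ E.ord f := fun f => Iff.rfl
  -- the frame at `E`
  let h' : Fin κ → Derivation ℂ K K := fun i => dualDer b (σ (Sum.inr i))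
  let e' : Fin d → Derivation ℂ K K := fun j => dualDer b (σ (Sum.inl j)) - ∑ i, n j i • dualDer b (σ (Sum.inr i))
  have e'_apply : ∀ j f, e' j f = dualDer b (σ (Sum.inl j)) f - ∑ i, n j i * dualDer b (σ (Sum.inr i)) f := by
    intro j f
    simp only [e', Derivation.coe_sub, Pi.sub_apply, reg_der_sum, Derivation.coe_smul, Pi.smul_apply, smul_eq_mul]
  have hh'O : ∀ i f, f ∈ O → h' i f ∈ O := fun i f hf => hpres _ f hf
  have he'O : ∀ j f, f ∈ O → e' j f ∈ O := by
    intro j f hf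
    rw [e'_apply]
    exact sub_mem (hpres _ f hf) (sum_mem fun i _ => mul_mem (hn j i) (hpres _ f hf))
  have he' : ∀ (j : Fin d) (i : Fin κ), e' j (φ i) = 0 := by
    intro j i
    rw [e'_apply, hrel j i, sub_self]
  -- `vol z ε e' h' = ± jac z b`
  obtain ⟨u, hu, hu2, huO⟩ : ∃ u : K, vol z ε e' h' = u * γ ∧ u * u = 1 ∧ u ∈ O := by
    have hm : (Matrix.of fun r s : Fin d ⊕ Fin κ => (Sum.elim e' h' r) (z (ε s))) =
        Matrix.fromBlocks 1 (-(Matrix.of n)) 0 1 * (Matrix.of fun i j => dualDer b i (z j)).submatrix σ ε := by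
      ext r s
      rw [Matrix.mul_apply, Fintype.sum_sum_type]
      rcases r with j | i
      · simp only [Matrix.of_apply, Sum.elim_inl, Matrix.fromBlocks_apply₁₁, Matrix.fromBlocks_apply₁₂, Matrix.submatrix_apply, Matrix.neg_apply,
          e'_apply, Matrix.one_apply, ite_mul, one_mul, zero_mul, Finset.sum_ite_eq, Finset.mem_univ, if_true, neg_mul, Finset.sum_neg_distrib]
        ring
      · simp only [Matrix.of_apply, Sum.elim_inr, Matrix.fromBlocks_apply₂₁, Matrix.fromBlocks_apply₂₂, Matrix.submatrix_apply, Matrix.zero_apply,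
          Matrix.one_apply, ite_mul, one_mul, zero_mul, Finset.sum_ite_eq, Finset.mem_univ, if_true, Finset.sum_const_zero, zero_add]
        rfl
    have hσ : ((Matrix.of fun i j => dualDer b i (z j)).submatrix σ ε).det = (Equiv.Perm.sign (σ.symm.trans ε) : ℤ) * γ := by
      have h1 : (Matrix.of fun i j => dualDer b i (z j)).submatrix σ ε =
          ((Matrix.of fun i j => dualDer b i (z j)).submatrix id (σ.symm.trans ε)).submatrix σ σ := by
        ext r s
        simp
      rw [h1, Matrix.det_submatrix_equiv_self, Matrix.det_permute']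
      rfl
    refine ⟨((Equiv.Perm.sign (σ.symm.trans ε) : ℤ) : K), ?_, ?_, intCast_mem O _⟩
    · unfold vol
      rw [hm, Matrix.det_mul, Matrix.det_fromBlocks_zero₂₁, Matrix.det_one, Matrix.det_one, one_mul, one_mul, hσ]
    · rcases Int.units_eq_one_or (Equiv.Perm.sign (σ.symm.trans ε)) with h1 | h1 <;> rw [h1] <;> simp
  have hu0 : u ≠ 0 := by
    rintro rfl
    simp at hu2
  have hv' : vol z ε e' h' ≠ 0 := by
    rw [hu]
    exact mul_ne_zero hu0 hγ
  obtain ⟨G, hG0, hGe, hGd⟩ := exists_change hz hφ he he' hv hv'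
  -- change of the frame in `Ψ`
  have hcd : cdet (fun α => Ψ.fn (I α) e') = G.det ^ a * cdet (fun α => Ψ.fn (I α) e) := by
    rw [← ha K G hG0 (fun α => Ψ.fn (I α) e) fun α => Ψ.hom _ _]
    congr 1
    funext α
    rw [← Ψ.subst]
    congr 1
    funext r
    exact hGe r
  have hcO : cdet (fun α => Ψ.fn (I α) e') ∈ O := by
    unfold cdet
    refine reg_det_mem O _ fun α β => ?_
    exact Ψ.reg (I α) e' E (fun j f hf => he'O j f hf) _
  -- the functions `τ`
  have hτ : ∀ i, s i * γ ^ l ∈ O := fun i => hs i E b hDC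
  have hrow : ∀ (i j : Fin κ), (s 0 * γ ^ l) ^ 2 * h' i (φ j) ∈ O := by
    intro i j
    have hτ0 : s 0 * γ ^ l ≠ 0 := mul_ne_zero hs0 (pow_ne_zero _ hγ)
    have e1 : φ j = s j.succ * γ ^ l / (s 0 * γ ^ l) := by
      rw [mul_div_mul_right _ _ (pow_ne_zero _ hγ)]
    have e2 : (s 0 * γ ^ l) ^ 2 * h' i (φ j) = (s 0 * γ ^ l) * h' i (s j.succ * γ ^ l) - (s j.succ * γ ^ l) * h' i (s 0 * γ ^ l) := by
      rw [e1, Derivation.leibniz_div]
      simp only [smul_eq_mul]
      field_simp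
    rw [e2]
    exact sub_mem (mul_mem (hτ 0) (hh'O i _ (hτ _))) (mul_mem (hτ _) (hh'O i _ (hτ 0)))
  have hdph : (s 0 * γ ^ l) ^ (2 * κ) * dph φ h' ∈ O := by
    have e1 : (s 0 * γ ^ l) ^ (2 * κ) * dph φ h' = (Matrix.of fun i j : Fin κ => (s 0 * γ ^ l) ^ 2 * h' i (φ j)).det := by
      unfold dph
      have e2 : (Matrix.of fun i j : Fin κ => (s 0 * γ ^ l) ^ 2 * h' i (φ j)) = ((s 0 * γ ^ l) ^ 2) • (Matrix.of fun i j : Fin κ => h' i (φ j)) := by
        ext i j
        simp
      rw [e2, Matrix.det_smul, Fintype.card_fin, pow_mul]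
    rw [e1]
    exact reg_det_mem O _ fun i j => hrow i j
  -- the end
  rw [← hO]
  have hfin : cdet (fun α => Ψ.fn (I α) e) * (dph φ h / vol z ε e h) ^ a * s 0 ^ (2 * κ * a) * γ ^ (a + 2 * κ * a * l) =
      cdet (fun α => Ψ.fn (I α) e') * ((s 0 * γ ^ l) ^ (2 * κ) * dph φ h') ^ a * u ^ a := by
    have h1 : dph φ h / vol z ε e h = dph φ h' * u / γ * G.det := by
      rw [eq_div_iff hG0] at hGd
      rw [← hGd, hu]
      field_simp
      rw [pow_two, hu2, one_mul]
    have hq : (dph φ h' * u / γ * G.det) ^ a * γ ^ a = (dph φ h' * u * G.det) ^ a := by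
      rw [← mul_pow]
      congr 1
      field_simp
    rw [h1, hcd]
    calc cdet (fun α => Ψ.fn (I α) e) * (dph φ h' * u / γ * G.det) ^ a * s 0 ^ (2 * κ * a) * γ ^ (a + 2 * κ * a * l) =
          cdet (fun α => Ψ.fn (I α) e) * ((dph φ h' * u / γ * G.det) ^ a * γ ^ a) * (s 0 ^ (2 * κ * a) * γ ^ (2 * κ * a * l)) := by ring
      _ = cdet (fun α => Ψ.fn (I α) e) * (dph φ h' * u * G.det) ^ a * (s 0 ^ (2 * κ * a) * γ ^ (2 * κ * a * l)) := by rw [hq]
      _ = _ := by ring
  rw [hfin]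
  exact mul_mem (mul_mem hcO (pow_mem hdph _)) (pow_mem huO _)

end Pool.Agent.GB
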