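import Pool.Agent.GB.Prd
import Pool.Agent.GB.Cmb

/-!
# GB Vec: the derivative of the coefficients is a derivative in the direction of a vector

PROOF.  Let `δ` be the `K`-linear map from the polynomials of degree `M` to `F` with `δ (p (I α)) = D (p (I α) (t))`.  By `Rel` (`D` kills `c`) `δ (p i) = D (p i (t))` for all `i`.  In the same
way `δ₂` on the polynomials of degree `M + M`, and `δ₂ (p_i p_j) = p_i (t) δ (p_j) + p_j (t) δ (p_i)`, so by bilinearity `δ₂ (p q) = p (t) δ (q) + q (t) δ (p)` for all `p`, `q` of degree `M`.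
For monomials: `l (α) = δ (X^α) / t^α` satisfies the hypothesis of `Cmb.exists_mu`; `w_l = t_l μ_l`.
-/

set_option autoImplicit false

open MvPolynomial

namespace Pool.Agent.GB

section

variable {K F : Type} [Field K] [Algebra ℂ K] [Field F] [Algebra ℂ F] [Algebra K F] [IsScalarTower ℂ K F] {d M : ℕ} {ι : Type}

omit [IsScalarTower ℂ K F] in
/-- the linear map `δ` -/
private theorem vec_delta {t : Fin d → F} {e : Fin d → Derivation ℂ K K} {p : ι → MvPolynomial (Fin d) K} {I : Mon d M → ι} {c : ι → Mon d M → K}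
    (h₁ : Rel e p I c) (j₀ : Fin d) {D : Derivation ℂ F F} (hD : ∀ f, D (algebraMap K F f) = algebraMap K F (e j₀ f)) :
    ∃ δ : MvPolynomial (Fin d) K →ₗ[K] F, ∀ i, δ (p i) = D (aeval t (p i)) := by
  classical
  have hli := linearIndependent_of_cdet h₁.ne
  obtain ⟨δ, hδ⟩ := LinearMap.exists_extend ((Module.Basis.span hli).constr K fun α => D (aeval t (p (I α))))
  have h1 : ∀ α, δ (p (I α)) = D (aeval t (p (I α))) := by
    intro α
    have h2 := LinearMap.congr_fun hδ (Module.Basis.span hli α)
    rw [Module.Basis.constr_basis] at h2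
    rw [← h2, LinearMap.comp_apply]
    congr 1
    rw [Module.Basis.span_apply hli α]
    rfl
  refine ⟨δ, fun i => ?_⟩
  have h3 : D (aeval t (p i)) = ∑ α, algebraMap K F (c i α) * D (aeval t (p (I α))) := by
    conv_lhs => rw [h₁.eq i]
    rw [map_sum, map_sum]
    refine Finset.sum_congr rfl fun α _ => ?_
    rw [map_mul, aeval_C, Derivation.leibniz, hD, h₁.ker, map_zero, smul_zero, add_zero, smul_eq_mul]
  have h4 : δ (p i) = ∑ α, algebraMap K F (c i α) * δ (p (I α)) := by
    conv_lhs => rw [h₁.eq i]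
    rw [map_sum]
    refine Finset.sum_congr rfl fun α _ => ?_
    rw [← smul_eq_C_mul, map_smul, Algebra.smul_def]
  rw [h3, h4]
  exact Finset.sum_congr rfl fun α _ => by rw [h1]

theorem exists_W (hM : 1 ≤ M)
    {t : Fin d → F} (ht : ∀ j, t j ≠ 0) {e : Fin d → Derivation ℂ K K} {p : ι → MvPolynomial (Fin d) K} {I : Mon d M → ι} {c : ι → Mon d M → K}
    (h₁ : Rel e p I c) {I₂ : Mon d (M + M) → ι × ι} {c₂ : ι × ι → Mon d (M + M) → K} (h₂ : Rel e (fun q : ι × ι => p q.1 * p q.2) I₂ c₂)
    (j₀ : Fin d) {D : Derivation ℂ F F} (hD : ∀ f, D (algebraMap K F f) = algebraMap K F (e j₀ f)) (hDt : ∀ j, D (t j) = 0) :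
    ∃ w : Fin d → F, ∀ i, D (aeval t (p i)) = ∑ l, w l * aeval t (pderiv l (p i)) := by
  classical
  obtain ⟨δ, hδ⟩ := vec_delta (t := t) h₁ j₀ hD
  obtain ⟨δ₂, hδ₂⟩ := vec_delta (t := t) h₂ j₀ hD
  have hc0 : CharZero F := charZero_of_injective_algebraMap (algebraMap ℂ F).injective
  -- the product rule
  have hb : ∀ i j, δ₂ (p i * p j) = aeval t (p i) * δ (p j) + aeval t (p j) * δ (p i) := by
    intro i j
    rw [hδ₂ (i, j), map_mul, Derivation.leibniz, hδ, hδ, smul_eq_mul, smul_eq_mul]
  have hb1 : ∀ i q, q ∈ Submodule.span K (Set.range p) → δ₂ (p i * q) = aeval t (p i) * δ q + aeval t q * δ (p i) := by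
    intro i q hq
    induction hq using Submodule.span_induction with
    | mem x hx =>
      obtain ⟨j, rfl⟩ := hx
      exact hb i j
    | zero => simp
    | add x y _ _ hx hy =>
      rw [mul_add, map_add, hx, hy, map_add, map_add]
      ring
    | smul a x _ hx =>
      rw [mul_smul_comm, map_smul, hx, map_smul, map_smul, Algebra.smul_def, Algebra.smul_def, Algebra.smul_def]
      ring
  have hb2 : ∀ q q', q ∈ Submodule.span K (Set.range p) → q' ∈ Submodule.span K (Set.range p) →
      δ₂ (q * q') = aeval t q * δ q' + aeval t q' * δ q := by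
    intro q q' hq hq'
    induction hq using Submodule.span_induction with
    | mem x hx =>
      obtain ⟨j, rfl⟩ := hx
      exact hb1 j q' hq'
    | zero => simp
    | add x y _ _ hx hy =>
      rw [add_mul, map_add, hx, hy, map_add, map_add]
      ring
    | smul a x _ hx =>
      rw [smul_mul_assoc, map_smul, hx, map_smul, map_smul, Algebra.smul_def, Algebra.smul_def, Algebra.smul_def]
      ring
  -- the monomials
  have hmono : ∀ α : Fin d →₀ ℕ, α.degree = M → (monomial α (1 : K)) ∈ Submodule.span K (Set.range p) := fun α hα =>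
    span_of_index h₁.hom h₁.ne (isHomogeneous_monomial _ hα)
  have hev : ∀ α : Fin d →₀ ℕ, aeval t (monomial α (1 : K)) = ∏ j, t j ^ α j := by
    intro α
    rw [aeval_monomial, map_one, one_mul, Finsupp.prod_fintype _ _ fun _ => pow_zero _]
  have hne : ∀ α : Fin d →₀ ℕ, (∏ j, t j ^ α j) ≠ 0 := fun α => Finset.prod_ne_zero_iff.2 fun j _ => pow_ne_zero _ (ht j)
  set l : (Fin d →₀ ℕ) → F := fun α => δ (monomial α 1) / ∏ j, t j ^ α j with hl
  have hsum : ∀ α β : Fin d →₀ ℕ, α.degree = M → β.degree = M → l α + l β = δ₂ (monomial (α + β) 1) / ∏ j, t j ^ (α + β) j := by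
    intro α β hα hβ
    have h5 := hb2 _ _ (hmono α hα) (hmono β hβ)
    rw [monomial_mul, mul_one, hev, hev] at h5
    have h6 : (∏ j, t j ^ (α + β) j) = (∏ j, t j ^ α j) * ∏ j, t j ^ β j := by
      rw [← Finset.prod_mul_distrib]
      exact Finset.prod_congr rfl fun j _ => by rw [Finsupp.add_apply, pow_add]
    rw [h5, h6, hl]
    have h7 := hne α
    have h8 := hne β
    field_simp
    ring
  obtain ⟨μ, hμ⟩ := exists_mu (l := l) hM fun α β α' β' hα hβ hα' hβ' h => by rw [hsum α β hα hβ, hsum α' β' hα' hβ', h]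
  refine ⟨fun j => t j * μ j, fun i => ?_⟩
  -- the formula for monomials
  have hm : ∀ α : Fin d →₀ ℕ, α.degree = M → δ (monomial α 1) = ∑ j, t j * μ j * aeval t (pderiv j (monomial α (1 : K))) := by
    intro α hα
    have h9 : δ (monomial α 1) = (∏ j, t j ^ α j) * l α := by
      rw [hl]
      field_simp [hne α]
    rw [h9, hμ α hα, Finset.mul_sum]
    refine Finset.sum_congr rfl fun j _ => ?_
    rw [pderiv_monomial, one_mul]
    rcases Nat.eq_zero_or_pos (α j) with h0 | h0
    · rw [h0]
      simp
    · rw [aeval_monomial, map_natCast, Finsupp.prod_fintype _ _ fun _ => pow_zero _]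
      have h10 : (∏ k, t k ^ α k) = t j * ∏ k, t k ^ (α - Finsupp.single j 1 : Fin d →₀ ℕ) k := by
        rw [← Finset.mul_prod_erase Finset.univ _ (Finset.mem_univ j), ← Finset.mul_prod_erase Finset.univ (fun k => t k ^ (α - Finsupp.single j 1 : Fin d →₀ ℕ) k) (Finset.mem_univ j),
          ← mul_assoc]
        congr 1
        · simp only [Finsupp.coe_tsub, Pi.sub_apply, Finsupp.single_eq_same]
          rw [← pow_succ']
          congr 1
          omega
        · refine Finset.prod_congr rfl fun k hk => ?_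
          have hkj : k ≠ j := Finset.ne_of_mem_erase hk
          simp [Finsupp.single_apply, hkj.symm]
      rw [h10]
      ring
  have hfin : ∀ q : MvPolynomial (Fin d) K, q.IsHomogeneous M → δ q = ∑ j, t j * μ j * aeval t (pderiv j q) := by
    intro q hq
    have h11 : ∀ α ∈ q.support, δ (monomial α (coeff α q)) = ∑ j, t j * μ j * aeval t (pderiv j (monomial α (coeff α q))) := by
      intro α hα
      have hdeg : α.degree = M := by
        have := hq (mem_support_iff.1 hα)
        rw [Finsupp.weight_apply] at this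
        rw [Finsupp.degree_eq_sum]
        simpa [Finsupp.sum_fintype] using this
      have h12 : monomial α (coeff α q) = coeff α q • monomial α (1 : K) := by
        rw [smul_monomial, smul_eq_mul, mul_one]
      rw [h12, map_smul, hm α hdeg, Finset.smul_sum]
      refine Finset.sum_congr rfl fun j _ => ?_
      rw [Derivation.map_smul, map_smul, Algebra.smul_def, Algebra.smul_def]
      ring
    conv_lhs => rw [q.as_sum]
    rw [map_sum, Finset.sum_congr rfl h11, Finset.sum_comm]
    refine Finset.sum_congr rfl fun j _ => ?_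
    rw [← Finset.mul_sum]
    congr 1
    conv_rhs => rw [q.as_sum]
    rw [map_sum, map_sum]
  rw [← hδ i]
  exact hfin _ (h₁.hom i)

end

end Pool.Agent.GB
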