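import Pool.Agent.GB.Wt
import Pool.Agent.GB.Inv
import Pool.Agent.GB.Reg
import Pool.Agent.GB.Max
import Pool.Agent.GB.Ker
import Pool.Agent.GB.Psi
import Pool.Agent.GB.Prd
import Pool.Agent.GB.Spn
import Pool.Agent.GB.Crm
import Pool.Agent.GB.Vec
import Pool.Agent.GB.Dex

/-!
# GB Asm: a tangent vector with values in a field

PROOF.  `K = FunField Q`, `a` with `X a ∉ Q`.  A nonzero `u` with `RegF z M u`, `M ≥ 1`: `Reg.reg_cdet` with `κ = 0`, `s = 1`, `l = 0` and the index of `Spn.exists_index_psi`.  `Max.exists_max`: `κ`, `l`, `s`; `d = k - κ ≥ 1`;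
`Ker.exists_frame_ker`: `e`, `h`.  `Reg.reg_cdet` for `psi` and for the products (`Prd`): the quotients of the `cdet` are killed by the `e j`; `Crm.exists_rel` twice.  `F = FractionRing (MvPolynomial (Fin d) K)`, `t_j = X j`:
`Dex.exists_der` for `e j` (`W = 0`), `Vec.exists_W`: `w_j`; `Dex.exists_der` with `δ = ∑ t_j e_j`, `W_l = - ∑ t_j w_(j l)`: `D` kills `psi i e`.  `y = tv Q a e` in `F`.
-/

set_option autoImplicit false

open MvPolynomial
open Pool.Agent.H17LG.Variety (FunField ratio IsLogGeneralType)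
open Pool.Agent.H62.FC (Homog)

namespace Pool.Agent.GB

open Pool.Agent.GG

section Field

variable {K : Type} [Field K] [Algebra ℂ K] {k d κ M l : ℕ} {ι : Type} {z : Fin k → K}

theorem Asm_first (hz : IsTranscendenceBasis ℂ z) (hk : 1 ≤ k) (hM : 1 ≤ M) (Ψ : SymFam K k k M ι)
    (hI : ∀ e : Fin k → Derivation ℂ K K, LinearIndependent K e → ∃ I : Mon k M → ι, cdet (fun α => Ψ.fn (I α) e) ≠ 0) :
    ∃ (M' : ℕ) (u : K), 1 ≤ M' ∧ RegF z M' u ∧ u ≠ 0 := by
  obtain ⟨a, ha, haw⟩ := exists_weight hk hM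
  have hφ : AlgebraicIndependent ℂ (fun i : Fin 0 => ((fun _ : Fin 1 => (1 : K)) i.succ / (fun _ : Fin 1 => (1 : K)) 0)) := by
    rw [algebraicIndependent_empty_type_iff]
    exact (algebraMap ℂ K).injective
  obtain ⟨e, h, he, hv⟩ := exists_frame_ker (d := k) (Nat.add_zero k) hz hφ
  have ε : Fin k ⊕ Fin 0 ≃ Fin k := Equiv.sumEmpty _ _
  obtain ⟨I, hI⟩ := hI e (indep_of_vol (hv ε))
  refine ⟨_, _, ?_, reg_cdet hz Ψ haw (s := fun _ => 1) (l := 0) one_ne_zero (fun _ => regF_one z) (linearIndependent_D hφ) he (hv ε) I, ?_⟩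
  · omega
  · refine mul_ne_zero (mul_ne_zero hI (pow_ne_zero _ (div_ne_zero ?_ (hv ε)))) (pow_ne_zero _ one_ne_zero)
    exact dph_ne hz (linearIndependent_D hφ) he (hv ε)

theorem Asm_rel (hz : IsTranscendenceBasis ℂ z) (hd : 1 ≤ d) (hM : 1 ≤ M) (Ψ : SymFam K k d M ι) {s : Fin (κ + 1) → K} (hs0 : s 0 ≠ 0)
    (hs : ∀ i, RegF z l (s i)) (hφ : LinearIndependent K fun i : Fin κ => KaehlerDifferential.D ℂ K (s i.succ / s 0))
    {ε : Fin d ⊕ Fin κ ≃ Fin k} {e : Fin d → Derivation ℂ K K} {h : Fin κ → Derivation ℂ K K}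
    (he : ∀ (j : Fin d) (i : Fin κ), e j (s i.succ / s 0) = 0) (hv : vol z ε e h ≠ 0)
    (hmax : ∀ (M' : ℕ) (u' v' : K), RegF z M' u' → RegF z M' v' → v' ≠ 0 →
        ∀ D : Derivation ℂ K K, (∀ i : Fin κ, D (s i.succ / s 0) = 0) → D (u' / v') = 0)
    {I : Mon d M → ι} (hI : cdet (fun α => Ψ.fn (I α) e) ≠ 0) : ∃ c : ι → Mon d M → K, Rel e (fun i => Ψ.fn i e) I c := by
  obtain ⟨a, -, haw⟩ := exists_weight hd hM
  refine exists_rel (fun i => Ψ.hom i e) hI fun I' j => ?_
  have hw : (dph (fun i : Fin κ => s i.succ / s 0) h / vol z ε e h) ^ a ≠ 0 := pow_ne_zero _ (div_ne_zero (dph_ne hz hφ he hv) hv)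
  have hs' : s 0 ^ (2 * κ * a) ≠ 0 := pow_ne_zero _ hs0
  have h1 := hmax _ _ _ (reg_cdet hz Ψ haw hs0 hs hφ he hv I') (reg_cdet hz Ψ haw hs0 hs hφ he hv I) (mul_ne_zero (mul_ne_zero hI hw) hs') (e j) (he j)
  rwa [mul_div_mul_right _ _ hs', mul_div_mul_right _ _ hw] at h1

theorem Asm_der_eq_zero {s : Set K} (hs : IntermediateField.adjoin ℂ s = ⊤) {D : Derivation ℂ K K}
    (hD : ∀ x ∈ s, D x = 0) : D = 0 := by
  ext x
  have hx : x ∈ IntermediateField.adjoin ℂ s := by
    rw [hs]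
    trivial
  rw [Derivation.coe_zero, Pi.zero_apply]
  induction hx using IntermediateField.adjoin_induction with
  | mem x hx => exact hD x hx
  | algebraMap x => exact D.map_algebraMap x
  | add x y _ _ hx hy => rw [map_add, hx, hy, add_zero]
  | inv x _ hx => rw [Derivation.leibniz_inv, hx, smul_zero]
  | mul x y _ _ hx hy => rw [Derivation.leibniz, hx, hy, smul_zero, smul_zero, add_zero]

end Field

section Der

variable {K F : Type} [Field K] [Algebra ℂ K] [Field F] [Algebra ℂ F] [Algebra K F] [IsScalarTower ℂ K F] {d : ℕ}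

/-- the chain rule for a derivation which kills the coefficients -/
private theorem Asm_chain (D : Derivation ℂ F F) (hD : ∀ f : K, D (algebraMap K F f) = 0) (t : Fin d → F) (p : MvPolynomial (Fin d) K) :
    D (aeval t p) = ∑ l, aeval t (pderiv l p) * D (t l) := by
  classical
  induction p using MvPolynomial.induction_on with
  | C c =>
    have h1 : ∀ s : Fin d, pderiv s (C c : MvPolynomial (Fin d) K) = 0 := fun s => pderiv_C
    simp only [h1, map_zero, zero_mul, Finset.sum_const_zero]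
    rw [← MvPolynomial.algebraMap_eq, AlgHom.commutes]
    exact hD c
  | add p q hp hq =>
    rw [map_add, map_add, hp, hq, ← Finset.sum_add_distrib]
    exact Finset.sum_congr rfl fun s _ => by rw [map_add, map_add, add_mul]
  | mul_X p i hp =>
    rw [map_mul, D.leibniz, hp, aeval_X, smul_eq_mul, smul_eq_mul]
    have h1 : ∀ s, aeval t (pderiv s (p * X i)) * D (t s) =
        t i * (aeval t (pderiv s p) * D (t s)) + (if s = i then aeval t p * D (t i) else 0) := by
      intro s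
      rw [Derivation.leibniz, map_add, smul_eq_mul, smul_eq_mul, map_mul, map_mul, aeval_X, pderiv_X]
      by_cases hs : s = i
      · subst hs
        rw [if_pos rfl, Pi.single_eq_same, map_one]
        ring
      · rw [if_neg hs, Pi.single_eq_of_ne (Ne.symm hs), map_zero]
        ring
    rw [Finset.sum_congr rfl fun s _ => h1 s, Finset.sum_add_distrib, ← Finset.mul_sum, Finset.sum_ite_eq' Finset.univ i, if_pos (Finset.mem_univ i)]
    ring

private theorem Asm_sum {κ A : Type} [Fintype κ] [CommRing A] [Algebra ℂ A] {B : Type} [AddCommGroup B] [Module A B] [Module ℂ B]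
    (D : κ → Derivation ℂ A B) (f : A) : (∑ j, D j) f = ∑ j, D j f := by
  have h := congrFun (map_sum (Derivation.coeFnAddMonoidHom (R := ℂ) (A := A) (M := B)) D Finset.univ) f
  rw [Finset.sum_apply] at h
  exact h

private theorem Asm_calc {A : Type} [CommRing A] {d : ℕ} (a t : Fin d → A) (w : Fin d → Fin d → A) :
    ∑ l, a l * -∑ j, t j * w j l = -∑ j, t j * ∑ l, w j l * a l := by
  simp only [mul_neg, Finset.mul_sum, Finset.sum_neg_distrib]
  rw [Finset.sum_comm]
  congr 1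
  refine Finset.sum_congr rfl fun j _ => Finset.sum_congr rfl fun l _ => ?_
  ring

end Der

section Main

variable {K : Type} [Field K] [Algebra ℂ K] {k d M : ℕ} {ι : Type} {z : Fin k → K}

/-- the derivation of the rational function field -/
theorem Asm_der (hz : IsTranscendenceBasis ℂ z) (hM : 1 ≤ M) {e : Fin d → Derivation ℂ K K} {p : ι → MvPolynomial (Fin d) K} {I : Mon d M → ι}
    {c : ι → Mon d M → K} (h₁ : Rel e p I c) {I₂ : Mon d (M + M) → ι × ι} {c₂ : ι × ι → Mon d (M + M) → K}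
    (h₂ : Rel e (fun q : ι × ι => p q.1 * p q.2) I₂ c₂) :
    ∃ D : Derivation ℂ (FractionRing (MvPolynomial (Fin d) K)) (FractionRing (MvPolynomial (Fin d) K)),
      (∀ f : K, D (algebraMap K _ f) = ∑ j, algebraMap (MvPolynomial (Fin d) K) _ (X j) * algebraMap K _ (e j f)) ∧
      ∀ i, D (algebraMap (MvPolynomial (Fin d) K) _ (p i)) = 0 := by
  set F := FractionRing (MvPolynomial (Fin d) K) with hF
  set t : Fin d → F := fun j => algebraMap (MvPolynomial (Fin d) K) F (X j) with ht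
  have ht0 : ∀ j, t j ≠ 0 := fun j => by
    rw [ht]
    exact (map_ne_zero_iff _ (IsFractionRing.injective (MvPolynomial (Fin d) K) F)).2 (X_ne_zero j)
  have hat : ∀ q : MvPolynomial (Fin d) K, aeval t q = algebraMap (MvPolynomial (Fin d) K) F q := by
    intro q
    have h := MvPolynomial.aeval_algebraMap_apply (R := K) (A := MvPolynomial (Fin d) K) (B := F) (X : Fin d → MvPolynomial (Fin d) K) q
    rw [MvPolynomial.aeval_X_left_apply] at h
    exact h
  let δ : Fin d → Derivation ℂ K F := fun j => (Algebra.linearMap K F).compDer (e j)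
  have hδ : ∀ j f, δ j f = algebraMap K F (e j f) := fun j f => rfl
  choose D₀ hD₀ hD₀t using fun j => exists_der hz (d := d) (δ j) 0
  choose w hw using fun j => exists_W hM ht0 h₁ h₂ j (D := D₀ j) (fun f => (hD₀ j f).trans (hδ j f)) fun l => by
    rw [hD₀t]
    rfl
  obtain ⟨D, hD, hDt⟩ := exists_der hz (d := d) (∑ j, t j • δ j) fun l => -∑ j, t j * w j l
  have hD' : ∀ f : K, D (algebraMap K F f) = ∑ j, t j * algebraMap K F (e j f) := by
    intro f
    rw [hD, Asm_sum]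
    exact Finset.sum_congr rfl fun j _ => by rw [Derivation.smul_apply, hδ, smul_eq_mul]
  refine ⟨D, hD', fun i => ?_⟩
  set E : Derivation ℂ F F := D - ∑ j, t j • D₀ j with hE
  have hE1 : ∀ x, E x = D x - ∑ j, t j * D₀ j x := by
    intro x
    rw [hE, Derivation.sub_apply, Asm_sum]
    rfl
  have hE2 : ∀ f : K, E (algebraMap K F f) = 0 := by
    intro f
    rw [hE1, hD', sub_eq_zero]
    exact Finset.sum_congr rfl fun j _ => by rw [hD₀, hδ]
  have h3 := Asm_chain E hE2 t (p i)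
  rw [hE1] at h3
  have h4 : ∀ l, E (t l) = -∑ j, t j * w j l := by
    intro l
    rw [hE1, hDt]
    have h5 : ∀ j, D₀ j (t l) = 0 := fun j => by
      rw [hD₀t]
      rfl
    simp only [h5, mul_zero, Finset.sum_const_zero, sub_zero]
  simp only [h4, hw] at h3
  rw [← hat]
  rw [Asm_calc (fun l => aeval t (pderiv l (p i))) t w] at h3
  linear_combination h3

end Main

variable {N : ℕ} {P Q : Ideal (MvPolynomial (Fin (N + 1)) ℂ)} {J m : ℕ} {θ : Fin J → SymSec P m}

theorem exists_field_point [P.IsPrime] (hP : Homog P) (hm : 1 ≤ m) (hgen : Generated θ) (f : Frame (m := fun _ => m) θ) [Q.IsPrime] (hQ : Homog Q)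
    (hPQ : P ≤ Q) {a : Fin (N + 1)} (ha : X a ∉ Q) {k : ℕ} (hk : 1 ≤ k) {z : Fin k → FunField Q} (hz : IsTranscendenceBasis ℂ z)
    (hn : ¬ IsLogGeneralType (K := FunField Q) (k := k) fun _ => False) :
    ∃ (F : Type) (_ : Field F) (_ : Algebra ℂ F) (D : Derivation ℂ F F) (y : Ph N → F), (∀ b, D (y (Sum.inl b)) = y (Sum.inr b)) ∧
      (∀ l, D (aeval y (gfam f a l)) = 0) ∧ y (Sum.inl a) = 1 ∧ y (Sum.inr a) = 0 ∧ (∀ q ∈ Q, aeval y (rename Sum.inl q) = 0) ∧
      (∀ q ∈ Q, aeval y (∑ b, rename Sum.inl (pderiv b q) * X (Sum.inr b)) = 0) ∧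
      (∀ (q : MvPolynomial (Fin (N + 1)) ℂ) (n : ℕ), q.IsHomogeneous n → q ∉ Q → aeval y (rename Sum.inl q) ≠ 0) ∧ ∃ b, y (Sum.inr b) ≠ 0 := by
  haveI : Algebra.EssFiniteType ℂ (FunField Q) := Pool.Agent.H17GT.essFiniteType_functionField Q
  have hac := Pool.Agent.H17R.coordFun_ne_zero_iff.2 ha
  -- a nonzero pluricanonical form
  obtain ⟨Ψ₀, hΨ₀⟩ := exists_psiFam f hQ hPQ ha k k
  obtain ⟨M', u, hM', hu, hu0⟩ := Asm_first hz hk hm Ψ₀ fun e he => by
    simp only [hΨ₀]
    exact exists_index_psi hP hgen f hQ hPQ ha he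
  obtain ⟨κ, l, s, hκ, hs0, hs, hφa, hmax⟩ := exists_max hk hz hn hM' hu hu0
  obtain ⟨d, hd⟩ : ∃ d, d + κ = k := ⟨k - κ, by omega⟩
  have hd1 : 1 ≤ d := by omega
  obtain ⟨e, h, he, hv⟩ := exists_frame_ker hd hz hφa
  have hφ := linearIndependent_D hφa
  have ε : Fin d ⊕ Fin κ ≃ Fin k := finSumFinEquiv.trans (finCongr hd)
  obtain ⟨Ψ, hΨ⟩ := exists_psiFam f hQ hPQ ha k d
  obtain ⟨Ψ₂, hΨ₂⟩ := exists_prdFam Ψ
  have hei := indep_of_vol (hv ε)
  obtain ⟨I, hI⟩ := exists_index_psi hP hgen f hQ hPQ ha hei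
  simp only [← hΨ] at hI
  obtain ⟨I₂, hI₂⟩ := exists_prd_index (fun i => Ψ.hom i e) hI
  simp only [← hΨ₂] at hI₂
  obtain ⟨c, hc⟩ := Asm_rel hz hd1 hm Ψ hs0 hs hφ he (hv ε) hmax hI
  obtain ⟨c₂, hc₂⟩ := Asm_rel hz hd1 (by omega) Ψ₂ hs0 hs hφ he (hv ε) hmax hI₂
  simp only [hΨ₂] at hc₂
  obtain ⟨D, hD, hDp⟩ := Asm_der hz hm hc hc₂
  simp only [hΨ] at hDp
  set F := FractionRing (MvPolynomial (Fin d) (FunField Q)) with hF
  let φ : MvPolynomial (Fin d) (FunField Q) →ₐ[ℂ] F := IsScalarTower.toAlgHom ℂ _ _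
  have hφv : ∀ x, φ x = algebraMap (MvPolynomial (Fin d) (FunField Q)) F x := fun _ => rfl
  obtain ⟨e1, e2, e3, e4⟩ := tv_eqs f hQ hPQ ha e
  have hy : ∀ G : MvPolynomial (Ph N) ℂ, aeval (fun s => φ (tv Q a e s)) G = φ (aeval (tv Q a e) G) := fun G =>
    (MvPolynomial.comp_aeval_apply (tv Q a e) φ G).symm
  have hx : ∀ b, D (φ (tv Q a e (Sum.inl b))) = φ (tv Q a e (Sum.inr b)) := by
    intro b
    have h1 : φ (tv Q a e (Sum.inl b)) = algebraMap (FunField Q) F (ratio Q b a) := by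
      rw [hφv, IsScalarTower.algebraMap_apply (FunField Q) (MvPolynomial (Fin d) (FunField Q)) F, MvPolynomial.algebraMap_eq]
      rfl
    rw [h1, hD]
    simp only [tv, Sum.elim_inr, map_sum, map_mul]
    refine Finset.sum_congr rfl fun j _ => ?_
    rw [hφv, hφv, IsScalarTower.algebraMap_apply (FunField Q) (MvPolynomial (Fin d) (FunField Q)) F, MvPolynomial.algebraMap_eq]
  have hfQ : ∀ j, f.Q j ∈ P := fun j => f.span.le (Ideal.subset_span ⟨j, rfl⟩)
  have hφi : ∀ x, φ x = 0 → x = 0 := fun x hx0 => by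
    rw [hφv] at hx0
    exact (map_eq_zero_iff _ (IsFractionRing.injective (MvPolynomial (Fin d) (FunField Q)) F)).1 hx0
  refine ⟨F, inferInstance, inferInstance, D, fun s => φ (tv Q a e s), hx, ?_, ?_, ?_, ?_, ?_, ?_, ?_⟩
  · rintro ((_ | _) | ((j | j) | i))
    · rw [hy]
      simp only [gfam, Sum.elim_inl, aeval_X, e1, map_one, Derivation.map_one_eq_zero]
    · rw [hy]
      simp only [gfam, Sum.elim_inl, Sum.elim_inr, aeval_X, e2, map_zero]
    · rw [hy]
      have hj : f.Q j ∈ Q := hPQ (hfQ j)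
      simp only [gfam, Sum.elim_inl, Sum.elim_inr, e3 _ hj, map_zero]
    · rw [hy]
      have hj : f.Q j ∈ Q := hPQ (hfQ j)
      simp only [gfam, Sum.elim_inl, Sum.elim_inr]
      rw [e4 _ hj, map_zero, map_zero]
    · rw [hy]
      exact hDp i
  · simp only [e1, map_one]
  · simp only [e2, map_zero]
  · intro q hq
    rw [hy, e3 q hq, map_zero]
  · intro q hq
    rw [hy, e4 q hq, map_zero]
  · intro q n hqn hq h0
    rw [hy] at h0
    have h1 := hφi _ h0
    have h2 : aeval (tv Q a e) (rename Sum.inl q) = C (aeval (fun b => ratio Q b a) q) := by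
      rw [aeval_rename, ← MvPolynomial.algebraMap_eq, ← MvPolynomial.aeval_algebraMap_apply]
      rfl
    rw [h2, C_eq_zero] at h1
    exact hq ((Pool.Agent.H17R.gen_eq_zero_iff hac hqn).1 h1)
  · by_contra hcon
    push Not at hcon
    have h1 : ∀ b j, e j (ratio Q b a) = 0 := by
      intro b j
      have h2 := hφi _ (hcon b)
      have h3 : coeff (Finsupp.single j 1) (∑ j, (X j : MvPolynomial (Fin d) (FunField Q)) * C (e j (ratio Q b a))) = e j (ratio Q b a) := by
        rw [coeff_sum, Finset.sum_eq_single j]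
        · rw [mul_comm, coeff_C_mul, coeff_X', if_pos rfl, mul_one]
        · intro i _ hi
          rw [mul_comm, coeff_C_mul, coeff_X', if_neg fun h => hi (Finsupp.single_left_injective one_ne_zero h), mul_zero]
        · intro h
          exact absurd (Finset.mem_univ j) h
      rw [← h3]
      have h4 : ∑ j, (X j : MvPolynomial (Fin d) (FunField Q)) * C (e j (ratio Q b a)) = 0 := h2
      rw [h4, coeff_zero]
    refine hei.ne_zero ⟨0, by omega⟩ (Asm_der_eq_zero (Pool.Agent.H17R.adjoin_ratio hac) ?_)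
    rintro _ ⟨b, rfl⟩
    exact h1 b _

end Pool.Agent.GB
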