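import Pool.Agent.GG.Defs

/-!
# GB Pt: the criterion at a point with values in a field with a derivation

PROOF.  `0 = D (G_l (y)) = ∑ ∂G_l/∂x_b (y) y_(inr b) + ∑ ∂G_l/∂v_b (y) D (y_(inr b))`, so `vmat (y) U = rhs (y)`, `U = D ∘ y ∘ inr`; multiply with the adjugate: `fld (y) = vdet (y) (D ∘ y)`.  Chain rule.
-/

set_option autoImplicit false

open MvPolynomial

namespace Pool.Agent.GB

open Pool.Agent.GG

variable {N : ℕ} {ι : Type} {F : Type} [Field F] [Algebra ℂ F]

/-- the chain rule -/
theorem der_aeval {σ : Type} [Fintype σ] (D : Derivation ℂ F F) (y : σ → F) (p : MvPolynomial σ ℂ) :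
    D (aeval y p) = ∑ s, aeval y (pderiv s p) * D (y s) := by
  classical
  induction p using MvPolynomial.induction_on with
  | C c =>
    have h1 : ∀ s : σ, pderiv s (C c : MvPolynomial σ ℂ) = 0 := fun s => pderiv_C
    simp only [h1, map_zero, zero_mul, Finset.sum_const_zero]
    rw [← MvPolynomial.algebraMap_eq, AlgHom.commutes]
    exact D.map_algebraMap c
  | add p q hp hq =>
    rw [map_add, map_add, hp, hq, ← Finset.sum_add_distrib]
    exact Finset.sum_congr rfl fun s _ => by rw [map_add, map_add, add_mul]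
  | mul_X p i hp =>
    rw [map_mul, D.leibniz, hp, aeval_X, smul_eq_mul, smul_eq_mul]
    have h1 : ∀ s, aeval y (pderiv s (p * X i)) * D (y s) =
        y i * (aeval y (pderiv s p) * D (y s)) + (if s = i then aeval y p * D (y i) else 0) := by
      intro s
      rw [Derivation.leibniz, map_add, smul_eq_mul, smul_eq_mul, map_mul, map_mul, aeval_X, pderiv_X]
      by_cases hs : s = i
      · subst hs
        rw [if_pos rfl, Pi.single_eq_same, map_one]
        ring
      · rw [if_neg hs, Pi.single_eq_of_ne (Ne.symm hs), map_zero]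
        ring
    rw [Finset.sum_congr rfl fun s _ => h1 s, Finset.sum_add_distrib, ← Finset.mul_sum, Finset.sum_ite_eq' Finset.univ i, if_pos (Finset.mem_univ i)]
    ring

private theorem Pt_sum {σ τ : Type} [Fintype τ] (D : τ → Derivation ℂ (MvPolynomial σ ℂ) (MvPolynomial σ ℂ)) (p : MvPolynomial σ ℂ) :
    (∑ s, D s) p = ∑ s, D s p := by
  have h := map_sum (Derivation.coeFnAddMonoidHom (R := ℂ) (A := MvPolynomial σ ℂ) (M := MvPolynomial σ ℂ)) D Finset.univ
  have h1 := congrFun h p
  rw [Finset.sum_apply] at h1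
  exact h1

private theorem Pt_mkDer {σ : Type} [Fintype σ] (f : σ → MvPolynomial σ ℂ) (p : MvPolynomial σ ℂ) :
    mkDerivation ℂ f p = ∑ s, pderiv s p * f s := by
  classical
  have h : mkDerivation ℂ f = ∑ s, f s • pderiv (R := ℂ) s := by
    refine MvPolynomial.derivation_ext fun i => ?_
    rw [mkDerivation_X, Pt_sum]
    simp only [Derivation.smul_apply, pderiv_X, smul_eq_mul]
    rw [Finset.sum_eq_single i]
    · rw [Pi.single_eq_same, mul_one]
    · intro s _ hs
      rw [Pi.single_eq_of_ne (Ne.symm hs), mul_zero]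
    · intro h
      exact absurd (Finset.mem_univ i) h
  rw [h, Pt_sum]
  exact Finset.sum_congr rfl fun s _ => by rw [Derivation.smul_apply, smul_eq_mul, mul_comm]

private theorem Pt_fld (G : ι → MvPolynomial (Ph N) ℂ) (J : Fin (N + 1) → ι) (D : Derivation ℂ F F) {y : Ph N → F} (hx : ∀ b, D (y (Sum.inl b)) = y (Sum.inr b))
    (hG : ∀ l, D (aeval y (G l)) = 0) (s : Ph N) : aeval y (fld G J s) = aeval y (vdet G J) * D (y s) := by
  rcases s with b | b
  · simp only [fld, Sum.elim_inl, map_mul, aeval_X, hx]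
  · set M : Matrix (Fin (N + 1)) (Fin (N + 1)) F := (vmat G J).map (aeval y) with hM
    have h1 : aeval y (fld G J (Sum.inr b)) = (M.adjugate.mulVec fun l => aeval y (rhs G J l)) b := by
      simp only [fld, Sum.elim_inr, Matrix.mulVec, dotProduct, map_sum, map_mul]
      refine Finset.sum_congr rfl fun l _ => ?_
      congr 1
      have := AlgHom.map_adjugate (aeval y : MvPolynomial (Ph N) ℂ →ₐ[ℂ] F) (vmat G J)
      have h2 := congrFun (congrFun this b) l
      simpa [hM, AlgHom.mapMatrix_apply] using h2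
    have h3 : (fun l => aeval y (rhs G J l)) = M.mulVec fun c => D (y (Sum.inr c)) := by
      funext l
      have h4 := hG (J l)
      rw [der_aeval, Fintype.sum_sum_type] at h4
      simp only [hx] at h4
      simp only [rhs, map_neg, map_sum, map_mul, aeval_X, Matrix.mulVec, dotProduct, hM, Matrix.map_apply, vmat]
      linear_combination -h4
    have h5 : aeval y (vdet G J) = M.det := by
      rw [vdet, hM]
      exact AlgHom.map_det (aeval y : MvPolynomial (Ph N) ℂ →ₐ[ℂ] F) (vmat G J)
    rw [h1, h3, h5, Matrix.mulVec_mulVec, Matrix.adjugate_mul, Matrix.smul_mulVec, Matrix.one_mulVec]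
    rfl

theorem aeval_Dt (G : ι → MvPolynomial (Ph N) ℂ) (J : Fin (N + 1) → ι) (D : Derivation ℂ F F) {y : Ph N → F} (hx : ∀ b, D (y (Sum.inl b)) = y (Sum.inr b))
    (hG : ∀ l, D (aeval y (G l)) = 0) (p : MvPolynomial (Ph N) ℂ) : aeval y (Dt G J p) = aeval y (vdet G J) * D (aeval y p) := by
  rw [Dt, Pt_mkDer, map_sum, der_aeval, Finset.mul_sum]
  refine Finset.sum_congr rfl fun s _ => ?_
  rw [map_mul, Pt_fld G J D hx hG]
  ring

theorem aeval_iter (G : ι → MvPolynomial (Ph N) ℂ) (J : Fin (N + 1) → ι) (D : Derivation ℂ F F) {y : Ph N → F} (hx : ∀ b, D (y (Sum.inl b)) = y (Sum.inr b))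
    (hG : ∀ l, D (aeval y (G l)) = 0) (l : ι) (k : ℕ) : aeval y ((⇑(Dt G J))^[k + 1] (G l)) = 0 := by
  induction k with
  | zero =>
    rw [zero_add, Function.iterate_one, aeval_Dt G J D hx hG, hG, mul_zero]
  | succ k ih =>
    rw [Function.iterate_succ_apply', aeval_Dt G J D hx hG, ih, map_zero, mul_zero]

theorem aeval_iter_zero (G : ι → MvPolynomial (Ph N) ℂ) (J : Fin (N + 1) → ι) (D : Derivation ℂ F F) {y : Ph N → F}
    (hx : ∀ b, D (y (Sum.inl b)) = y (Sum.inr b)) (hG : ∀ l, D (aeval y (G l)) = 0) {p : MvPolynomial (Ph N) ℂ} (hp : aeval y p = 0) (k : ℕ) :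
    aeval y ((⇑(Dt G J))^[k] p) = 0 := by
  induction k with
  | zero => exact hp
  | succ k ih => rw [Function.iterate_succ_apply', aeval_Dt G J D hx hG, ih, map_zero, mul_zero]

end Pool.Agent.GB
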