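import Pool.Agent.GB.Trf
import Pool.Agent.GB.Defs
import Pool.Agent.GG.Row

/-!
# GB Vd: some minor is not zero

PROOF.  If all `vdet (gfam f a) K` vanish at `y`: `Trf.transfer` with `S` = the equations of the tangent vectors (`X (inl a) - 1`, `X (inr a)`, `Q_j`, `dQ_j`) and all `vdet`, `G = X (inr b)`.  At a complex
tangent vector `(x, v)`, `x_a = 1`, `v_a = 0`, `v ≠ 0`, the matrix of all `∂G_l/∂v_b` is injective (`v_a`, `dQ_j`, polar forms: `Polar`; compare `GG.Row`), so some minor of `N + 1` rows is not `0`.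
-/

set_option autoImplicit false

open MvPolynomial
open Pool.Agent.H62.FC (Homog)

namespace Pool.Agent.GB

open Pool.Agent.GG

variable {N : ℕ} {P : Ideal (MvPolynomial (Fin (N + 1)) ℂ)} {J : ℕ} {m : Fin J → ℕ} {θ : ∀ k, SymSec P (m k)}

theorem exists_vdet_ne [P.IsPrime] (hP : Homog P) (hpol : Polar θ) (f : Frame θ) (a : Fin (N + 1)) {F : Type} [Field F] [Algebra ℂ F] {y : Ph N → F}
    (h1 : y (Sum.inl a) = 1) (h2 : y (Sum.inr a) = 0) (h3 : ∀ q ∈ P, aeval y (rename Sum.inl q) = 0)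
    (h4 : ∀ q ∈ P, aeval y (∑ b, rename Sum.inl (pderiv b q) * X (Sum.inr b)) = 0) (h5 : ∃ b, y (Sum.inr b) ≠ 0) :
    ∃ K : Fin (N + 1) → (Unit ⊕ Unit) ⊕ (Fin f.q ⊕ Fin f.q) ⊕ Fin J, aeval y (vdet (gfam f a) K) ≠ 0 := by
  by_contra hne
  obtain ⟨b, hb⟩ := h5
  apply hb
  -- the equations of the tangent vectors with vanishing minors
  let S : Set (MvPolynomial (Ph N) ℂ) := {s | s = X (Sum.inl a) - 1 ∨ s = X (Sum.inr a) ∨ (∃ q ∈ P, s = rename Sum.inl q) ∨
    (∃ q ∈ P, s = ∑ b, rename Sum.inl (pderiv b q) * X (Sum.inr b)) ∨ ∃ K, s = vdet (gfam f a) K}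
  have hC : ∀ z : Ph N → ℂ, (∀ s ∈ S, eval z s = 0) → eval z (X (Sum.inr b) : MvPolynomial (Ph N) ℂ) = 0 := by
    intro z hz
    have e1 : z (Sum.inl a) = 1 := by
      have h := hz _ (Or.inl rfl)
      rw [map_sub, eval_X, map_one, sub_eq_zero] at h
      exact h
    have e2 : z (Sum.inr a) = 0 := by
      have h := hz _ (Or.inr (Or.inl rfl))
      rwa [eval_X] at h
    have e3 : ∀ q ∈ P, eval (fun c => z (Sum.inl c)) q = 0 := fun q hq => by
      have h := hz _ (Or.inr (Or.inr (Or.inl ⟨q, hq, rfl⟩)))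
      rw [eval_rename] at h
      exact h
    have e4 : ∀ q ∈ P, ∑ c, z (Sum.inr c) * eval (fun c => z (Sum.inl c)) (pderiv c q) = 0 := fun q hq => by
      have h := hz _ (Or.inr (Or.inr (Or.inr (Or.inl ⟨q, hq, rfl⟩))))
      rw [map_sum] at h
      rw [← h]
      refine Finset.sum_congr rfl fun c _ => ?_
      rw [map_mul, eval_rename, eval_X, mul_comm]
      rfl
    have e5 : ∀ K, eval z (vdet (gfam f a) K) = 0 := fun K => hz _ (Or.inr (Or.inr (Or.inr (Or.inr ⟨K, rfl⟩))))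
    rw [eval_X]
    by_contra hzb
    have hpt : pt (fun c => z (Sum.inl c)) (fun c => z (Sum.inr c)) = z := by
      funext s
      rcases s with c | c <;> rfl
    have hT : IsTan θ a (fun k => (θ k).toFun (fun c => z (Sum.inl c)) fun c => z (Sum.inr c)) (fun c => z (Sum.inl c)) fun c => z (Sum.inr c) := by
      refine ⟨⟨fun h0 => ?_, e3⟩, e1, e4, e2, fun k => rfl⟩
      have h6 := congrFun h0 a
      rw [Pi.zero_apply, e1] at h6
      exact one_ne_zero h6
    obtain ⟨K, hK⟩ := exists_row hpol f hT (fun h0 => hzb (congrFun h0 b))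
    rw [hpt] at hK
    exact hK (e5 K)
  have h := transfer hC y (by
    rintro s (rfl | rfl | ⟨q, hq, rfl⟩ | ⟨q, hq, rfl⟩ | ⟨K, rfl⟩)
    · rw [map_sub, aeval_X, h1, map_one, sub_self]
    · rw [aeval_X, h2]
    · exact h3 q hq
    · exact h4 q hq
    · by_contra hK
      exact hne ⟨K, hK⟩)
  rwa [aeval_X] at h

end Pool.Agent.GB
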