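import Pool.Agent.GB.Trf
import Pool.Agent.GB.Asm
import Pool.Agent.GB.Pol
import Pool.Agent.GB.Vd
import Pool.Agent.GB.Pt
import Pool.Agent.H92.GT.ProjPoint

/-!
# GB Fin: Theorem B, algebraic form

PROOF.  `Asm.exists_field_point`, `Vd.exists_vdet_ne`, `Pt.aeval_iter`, and `Trf.transfer` (contraposition) for `S` = the equations of the tangent vectors of the variety of `Q` in the chart and all
`(Dt G K)^[n + 1] (G l)`, and the polynomial `vdet · q · X (inr b)`.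
-/

set_option autoImplicit false

open MvPolynomial
open Pool.Agent.H13.SM (conTan cone)
open Pool.Agent.H17LG.Variety (FunField ratio IsLogGeneralType)
open Pool.Agent.H62.FC (Homog)

namespace Pool.Agent.GB

open Pool.Agent.GG

variable {N : ℕ} {P Q : Ideal (MvPolynomial (Fin (N + 1)) ℂ)} {J m : ℕ} {θ : Fin J → SymSec P m}

/-- **Theorem B.**  If `Q` gives a closed subvariety `Y`, of dimension `k ≥ 1`, which is not of general type, and `q` is a form which is not zero on it, then there is a tangent vector `(x, v)`, `v ≠ 0`, at a point `x`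
of `Y` with `q (x) ≠ 0`, which satisfies the criterion `Crit`, and the criterion for `x (z) ∈ Y`. -/
theorem exists_crit_inv [P.IsPrime] (hP : Homog P) (hm : 1 ≤ m) (hgen : Generated θ) (f : Frame (m := fun _ => m) θ) [Q.IsPrime] (hQ : Homog Q)
    (hPQ : P ≤ Q) {k : ℕ} (hk : 1 ≤ k) (hz : ∃ z : Fin k → FunField Q, IsTranscendenceBasis ℂ z)
    (hn : ¬ IsLogGeneralType (K := FunField Q) (k := k) fun _ => False) {q : MvPolynomial (Fin (N + 1)) ℂ} {n : ℕ} (hq : q.IsHomogeneous n) (hqQ : q ∉ Q) :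
    ∃ (a : Fin (N + 1)) (K : Fin (N + 1) → (Unit ⊕ Unit) ⊕ (Fin f.q ⊕ Fin f.q) ⊕ Fin J) (x v : Fin (N + 1) → ℂ),
      x ∈ cone Q ∧ x a = 1 ∧ v ∈ conTan Q x ∧ v a = 0 ∧ v ≠ 0 ∧ eval x q ≠ 0 ∧ Crit (gfam f a) K (pt x v) ∧
        ∀ p ∈ Q, ∀ n, eval (pt x v) ((⇑(Dt (gfam f a) K))^[n] (rename Sum.inl p)) = 0 := by
  obtain ⟨z, hz⟩ := hz
  -- a chart
  obtain ⟨a, ha⟩ : ∃ a, X a ∉ Q := by
    obtain ⟨k', rfl⟩ : ∃ k', k = k' + 1 := ⟨k - 1, by omega⟩
    obtain ⟨a, ha⟩ := Pool.Agent.H92.GT.Proj.exists_coordFun_ne_zero Q z hz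
    exact ⟨a, Pool.Agent.H17R.coordFun_ne_zero_iff.1 ha⟩
  obtain ⟨F, _, _, D, y, hx, hG, h1, h2, h3, h4, h5, b, hb⟩ := exists_field_point hP hm hgen f hQ hPQ ha hk hz hn
  obtain ⟨K, hK⟩ := exists_vdet_ne (F := F) hP (polar_of_generated hm hgen) f a h1 h2 (fun p hp => h3 p (hPQ hp)) (fun p hp => h4 p (hPQ hp)) ⟨b, hb⟩
  set T : MvPolynomial (Fin (N + 1)) ℂ → MvPolynomial (Ph N) ℂ := fun p => ∑ b, rename Sum.inl (pderiv b p) * X (Sum.inr b) with hT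
  set S : Set (MvPolynomial (Ph N) ℂ) := ({X (Sum.inl a) - 1, X (Sum.inr a)} ∪ (rename Sum.inl '' (Q : Set (MvPolynomial (Fin (N + 1)) ℂ)))) ∪
    ((T '' (Q : Set (MvPolynomial (Fin (N + 1)) ℂ))) ∪ ({s | ∃ l n, s = (⇑(Dt (gfam f a) K))^[n + 1] (gfam f a l)} ∪
      {s | ∃ p ∈ Q, ∃ n, s = (⇑(Dt (gfam f a) K))^[n] (rename Sum.inl p)})) with hS
  have hyS : ∀ s ∈ S, aeval y s = 0 := by
    rintro s ((hs | ⟨p, hp, rfl⟩) | (⟨p, hp, rfl⟩ | (⟨l, n, rfl⟩ | ⟨p, hp, n, rfl⟩)))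
    · rcases hs with rfl | hs
      · rw [map_sub, aeval_X, h1, map_one, sub_self]
      · rw [Set.mem_singleton_iff.1 hs, aeval_X, h2]
    · exact h3 p hp
    · exact h4 p hp
    · exact aeval_iter (gfam f a) K D hx hG l n
    · exact aeval_iter_zero (gfam f a) K D hx hG (h3 p hp) n
  have hyG : aeval y (vdet (gfam f a) K * (rename Sum.inl q * X (Sum.inr b))) ≠ 0 := by
    rw [map_mul, map_mul, aeval_X]
    exact mul_ne_zero hK (mul_ne_zero (h5 q n hq hqQ) hb)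
  by_contra hcon
  refine hyG (transfer (S := S) ?_ y hyS)
  intro w hw
  by_contra hne
  refine hcon ⟨a, K, fun b => w (Sum.inl b), fun b => w (Sum.inr b), ?_⟩
  have hpt : pt (fun b => w (Sum.inl b)) (fun b => w (Sum.inr b)) = w := by
    funext s
    rcases s with s | s <;> rfl
  have hwa : w (Sum.inl a) = 1 := by
    have := hw _ (Or.inl (Or.inl (Or.inl rfl)))
    rw [map_sub, eval_X, map_one] at this
    exact sub_eq_zero.1 this
  have hren : ∀ p : MvPolynomial (Fin (N + 1)) ℂ, eval w (rename Sum.inl p) = eval (fun b => w (Sum.inl b)) p := fun p => by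
    rw [eval_rename]
    rfl
  rw [map_mul, map_mul, eval_X, hren] at hne
  have hne1 := left_ne_zero_of_mul hne
  have hne2 := left_ne_zero_of_mul (right_ne_zero_of_mul hne)
  have hne3 := right_ne_zero_of_mul (right_ne_zero_of_mul hne)
  refine ⟨⟨fun h => ?_, fun p hp => ?_⟩, hwa, ?_, ?_, fun h => hne3 (congrFun h b), hne2, ⟨?_, ?_⟩, ?_⟩
  · have := congrFun h a
    simp only [hwa, Pi.zero_apply, one_ne_zero] at this
  · rw [← hren]
    exact hw _ (Or.inl (Or.inr ⟨p, hp, rfl⟩))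
  · intro p hp
    have h6 := hw _ (Or.inr (Or.inl ⟨p, hp, rfl⟩))
    simp only [hT, map_sum, map_mul, eval_X, hren] at h6
    rw [← h6]
    exact Finset.sum_congr rfl fun i _ => mul_comm _ _
  · have := hw _ (Or.inl (Or.inl (Or.inr rfl)))
    rwa [eval_X] at this
  · rw [hpt]
    exact hne1
  · intro l n
    rw [hpt]
    exact hw _ (Or.inr (Or.inr (Or.inl ⟨l, n, rfl⟩)))
  · intro p hp n
    rw [hpt]
    exact hw _ (Or.inr (Or.inr (Or.inr ⟨p, hp, n, rfl⟩)))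

theorem exists_crit [P.IsPrime] (hP : Homog P) (hm : 1 ≤ m) (hgen : Generated θ) (f : Frame (m := fun _ => m) θ) [Q.IsPrime] (hQ : Homog Q)
    (hPQ : P ≤ Q) {k : ℕ} (hk : 1 ≤ k) (hz : ∃ z : Fin k → FunField Q, IsTranscendenceBasis ℂ z)
    (hn : ¬ IsLogGeneralType (K := FunField Q) (k := k) fun _ => False) {q : MvPolynomial (Fin (N + 1)) ℂ} {n : ℕ} (hq : q.IsHomogeneous n) (hqQ : q ∉ Q) :
    ∃ (a : Fin (N + 1)) (K : Fin (N + 1) → (Unit ⊕ Unit) ⊕ (Fin f.q ⊕ Fin f.q) ⊕ Fin J) (x v : Fin (N + 1) → ℂ),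
      x ∈ cone Q ∧ x a = 1 ∧ v ∈ conTan Q x ∧ v a = 0 ∧ v ≠ 0 ∧ eval x q ≠ 0 ∧ Crit (gfam f a) K (pt x v) := by
  obtain ⟨a, K, x, v, h1, h2, h3, h4, h5, h6, h7, -⟩ := exists_crit_inv hP hm hgen f hQ hPQ hk hz hn hq hqQ
  exact ⟨a, K, x, v, h1, h2, h3, h4, h5, h6, h7⟩

end Pool.Agent.GB
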