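import Pool.Agent.GB.Fin
import Pool.Agent.GG.Use

/-!
# GB Use: Theorem B for entire curves

PROOF.  `exists_crit_inv`; the family `G' = G ∪ {p (x) | p ∈ Q}` has the same vector field, so its arc (`isInit_of_crit`) lies in the variety of `Q`; `exists_entire` (as in `GG.entire_of_crit`) and the identity theorem.
-/

set_option autoImplicit false

open MvPolynomial Topology Filter Metric
open Pool.Agent.H13.SM (conTan cone)
open Pool.Agent.H17 (PN HolomorphicInto VanishesAt EntFun)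
open Pool.Agent.H17BP (vanishesAt_mk)
open Pool.Agent.H17EF (projVar)
open Pool.Agent.H13.OT (OrderTwo)
open Pool.Agent.H17LG.Variety (FunField ratio IsLogGeneralType)
open Pool.Agent.H62.FC (Homog)

namespace Pool.Agent.GB

open Pool.Agent.GG

variable {N : ℕ} {P Q : Ideal (MvPolynomial (Fin (N + 1)) ℂ)}

/-- the family with the equations of the subvariety -/
private noncomputable def Use_fam {ι : Type} (G : ι → MvPolynomial (Ph N) ℂ) (Q : Ideal (MvPolynomial (Fin (N + 1)) ℂ)) : ι ⊕ Q → MvPolynomial (Ph N) ℂ :=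
  Sum.elim G fun p => rename Sum.inl p.1

private theorem Use_arc {ι : Type} {G : ι → MvPolynomial (Ph N) ℂ} {K : Fin (N + 1) → ι} {y₀ : Ph N → ℂ} (hc : Crit G K y₀)
    (hQ : ∀ p ∈ Q, ∀ n, eval y₀ ((⇑(Dt G K))^[n] (rename Sum.inl p)) = 0) :
    ∃ x : ℂ → Fin (N + 1) → ℂ, ArcV G x 0 ∧ pt (x 0) (deriv x 0) = y₀ ∧ ∀ p ∈ Q, ∀ᶠ s in 𝓝 (0 : ℂ), eval (x s) p = 0 := by
  have h1 : Crit (Use_fam G Q) (fun b => Sum.inl (K b)) y₀ := by
    refine ⟨hc.1, ?_⟩
    rintro (l | p) n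
    · exact hc.2 l n
    · exact hQ p.1 p.2 (n + 1)
  obtain ⟨x, ⟨hx, hxG⟩, hx0⟩ := isInit_of_crit h1
  refine ⟨x, ⟨hx, fun l => hxG (Sum.inl l)⟩, hx0, fun p hp => ?_⟩
  have h2 : ∀ s, eval (pt (x s) (deriv x s)) (rename Sum.inl p) = eval (x s) p := fun s => by
    rw [eval_rename]
    rfl
  filter_upwards [hxG (Sum.inr ⟨p, hp⟩)] with s hs
  have h3 : eval (pt (x s) (deriv x s)) (rename Sum.inl p) = eval (pt (x 0) (deriv x 0)) (rename Sum.inl p) := hs
  rw [← h2, h3, hx0]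
  exact hQ p hp 0

private theorem Use_ident {g : ℂ → PN N} (hg : HolomorphicInto g Set.univ) {p : MvPolynomial (Fin (N + 1)) ℂ} {n : ℕ} (hp : p.IsHomogeneous n)
    (h : ∀ᶠ s in 𝓝 (0 : ℂ), VanishesAt p (g s)) (z : ℂ) : VanishesAt p (g z) := by
  obtain ⟨x, hx⟩ := Pool.Agent.H17.exists_global_lift hg
  have hxa : ∀ w, AnalyticAt ℂ (fun z => eval (fun j => (x j : ℂ → ℂ) z) p) w := by
    intro w
    have h1 : AnalyticAt ℂ (fun z => fun j => (x j : ℂ → ℂ) z) w := by
      rw [analyticAt_pi_iff]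
      intro j
      exact (x j).2.analyticAt w
    exact AnalyticAt.comp (g := fun y : Fin (N + 1) → ℂ => eval y p) (f := fun z => fun j => (x j : ℂ → ℂ) z)
      (AnalyticOnNhd.eval_mvPolynomial p _ (Set.mem_univ _)) h1
  have h2 : (fun z => eval (fun j => (x j : ℂ → ℂ) z) p) = fun _ => 0 := by
    refine AnalyticOnNhd.eq_of_eventuallyEq (𝕜 := ℂ) (fun w _ => hxa w) (fun w _ => analyticAt_const) (z₀ := 0) ?_
    filter_upwards [h] with s hs
    obtain ⟨h0, h1⟩ := hx s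
    rw [h1, vanishesAt_mk hp h0] at hs
    exact hs
  obtain ⟨h0, h1⟩ := hx z
  rw [h1, vanishesAt_mk hp h0]
  exact congrFun h2 z

variable {J m : ℕ} {θ : Fin J → SymSec P m}

/-- **Theorem B** for entire curves: if the closed subvariety `Y` given by `Q`, of dimension `k ≥ 1`, is not of general type, and `q` is a form which is not zero on it, then there is a nonconstant entire curve in `Y`, of order two,
which is not in the zero set of `q`. -/
theorem exists_entire_sub [P.IsPrime] (hP : Homog P) (hm : 1 ≤ m) (hgen : Generated θ) [Q.IsPrime] (hQ : Homog Q)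
    (hPQ : P ≤ Q) {k : ℕ} (hk : 1 ≤ k) (hz : ∃ z : Fin k → FunField Q, IsTranscendenceBasis ℂ z)
    (hn : ¬ IsLogGeneralType (K := FunField Q) (k := k) fun _ => False) {q : MvPolynomial (Fin (N + 1)) ℂ} {n : ℕ} (hq : q.IsHomogeneous n) (hqQ : q ∉ Q) :
    ∃ (g : ℂ → PN N) (c : Fin J → ℂ), HolomorphicInto g Set.univ ∧ OrderTwo g ∧ (∀ z, g z ∈ projVar Q) ∧ (∃ z w, g z ≠ g w) ∧ ¬ VanishesAt q (g 0) ∧
      c ≠ 0 ∧ ∀ z, ArcAt (m := fun _ => m) θ c g z := by
  classical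
  obtain ⟨f⟩ := exists_frame (m := fun _ => m) θ
  have hθ := polar_of_generated hm hgen
  obtain ⟨a, K, x, v, hx, hxa, hv, hva, hv0, hxq, hcr, hinv⟩ := exists_crit_inv hP hm hgen f hQ hPQ hk hz hn hq hqQ
  have hxP : x ∈ cone P := ⟨hx.1, fun p hp => hx.2 p (hPQ hp)⟩
  have hvP : v ∈ conTan P x := fun p hp => hv p (hPQ hp)
  have hT : IsTan (m := fun _ => m) θ a (fun k => (θ k).toFun x v) x v := ⟨hxP, hxa, hvP, hva, fun k => rfl⟩
  set c : Fin J → ℂ := fun k => (θ k).toFun x v with hc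
  obtain ⟨y, hy, hy0, hyQ⟩ := Use_arc hcr hinv
  have hyx : y 0 = x := by
    funext i
    exact congrFun hy0 (Sum.inl i)
  have hN : NArc (m := fun _ => m) θ a c y 0 := nArc_of_const f hT hy.1 fun l => by
    filter_upwards [hy.2 l] with w hw
    rw [hw, hy0]
  have hx0 : x ≠ 0 := hx.1
  have hc0 : c ≠ 0 := by
    intro h0
    rw [h0] at hT
    obtain ⟨r, hr⟩ := Submodule.mem_span_singleton.1 (no_common_zero hθ (fun _ => hm) hT.1 hT.2.2.1 hT.2.2.2.2)
    have h5 : r * x a = v a := congrFun hr a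
    rw [hxa, hva, mul_one] at h5
    rw [h5, zero_smul] at hr
    exact hv0 hr.symm
  set g : ℂ → PN N := fun w => if h : y w ≠ 0 then Projectivization.mk ℂ (y w) h else Projectivization.mk ℂ x hx0 with hg
  have hr : Rep g y 0 := by
    filter_upwards [hN.2] with w hw
    exact ⟨hw.1.1, dif_pos hw.1.1⟩
  have hA : ArcAt (m := fun _ => m) θ c g 0 := arcAt_of_nArc hN hr
  obtain ⟨r, hr0, K', hU⟩ := unif hθ (fun _ => hm) f (C := {c}) isCompact_singleton (by simpa using hc0.symm)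
  obtain ⟨g', hg', he⟩ := exists_entire hP f hr0 hU hA
  obtain ⟨hhol, hord, -, hne⟩ := orderTwo_of_arcAt hP hθ (fun _ => hm) hc0 hg'
  refine ⟨g', c, hhol, hord, ?_, hne, ?_, hc0, hg'⟩
  · intro z p hp n hpn
    refine Use_ident hhol hpn ?_ z
    filter_upwards [he, hr, hyQ p hp] with s h1 h2 h3
    obtain ⟨h4, h5⟩ := h2
    rw [h1, h5, vanishesAt_mk hpn h4]
    exact h3
  · rw [he.self_of_nhds]
    obtain ⟨h0, h1⟩ := hr.self_of_nhds
    rw [h1, vanishesAt_mk hq h0, hyx]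
    exact hxq

end Pool.Agent.GB
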