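import Pool.Agent.GB.Defs

/-!
# GB Wt: the determinant of the symmetric power of a matrix is a power of its determinant

PROOF.  `S^M (g)`: the matrix of `sbs g` on the monomials of degree `M`; `cdet (sbs g ∘ p) = χ (g) cdet p`, `χ (g) = det S^M (g)`, `χ (g g') = χ (g) χ (g')`.
Transvections: `diag t (c) diag⁻¹ = t (2 c) = t (c)^2`, so `χ (t) = χ (t)^2`, `χ (t) = 1`.  Diagonal matrices: `χ = ∏ j, t_j ^ (∑ α, α j)`, and `∑ α, α j`
does not depend on `j` (permute the variables): this is `a`; `a ≥ 1` since some `α j ≥ 1`.  `Matrix.diagonal_transvection_induction_of_det_ne_zero`.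
-/

set_option autoImplicit false

open MvPolynomial Matrix

namespace Pool.Agent.GB

theorem Mon.sum_eq {d m : ℕ} (α : Mon d m) : ∑ k, α.1 k = m := by
  have h := (Finset.mem_finsuppAntidiag.1 α.2).1
  simpa using h

theorem Mon.degree_eq {d m : ℕ} (α : Mon d m) : α.1.degree = m := by
  rw [Finsupp.degree_eq_sum, Mon.sum_eq]

/-- constructor -/
def Mon.mk {d m : ℕ} (α : Fin d →₀ ℕ) (h : ∑ k, α k = m) : Mon d m :=
  ⟨α, Finset.mem_finsuppAntidiag.2 ⟨by simpa using h, Finset.subset_univ _⟩⟩

variable {R : Type} [Field R] {d : ℕ}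

theorem sbs_X (A : Matrix (Fin d) (Fin d) R) (k : Fin d) : sbs A (X k) = ∑ l, C (A l k) * X l := aeval_X _ _

/-- the matrix of the substitution on the forms of degree `m` -/
noncomputable def symMat (m : ℕ) (A : Matrix (Fin d) (Fin d) R) : Matrix (Mon d m) (Mon d m) R := fun α β =>
  coeff β.1 (sbs A (monomial α.1 1))

theorem sbs_isHomogeneous (A : Matrix (Fin d) (Fin d) R) {m : ℕ} {q : MvPolynomial (Fin d) R} (hq : q.IsHomogeneous m) :
    (sbs A q).IsHomogeneous m := by
  have h := hq.aeval (fun k => ∑ l, C (A l k) * X l) (n := 1) (fun k => IsHomogeneous.sum _ _ _ fun l _ => by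
    have h1 := (isHomogeneous_C (Fin d) (A l k)).mul (isHomogeneous_X R l)
    rwa [zero_add] at h1)
  rwa [one_mul] at h

theorem sum_mon {M : Type*} [AddCommMonoid M] {m : ℕ} {q : MvPolynomial (Fin d) R} (hq : q.IsHomogeneous m)
    (F : (Fin d →₀ ℕ) → R → M) (hF : ∀ α, F α 0 = 0) : ∑ α ∈ q.support, F α (coeff α q) = ∑ α : Mon d m, F α.1 (coeff α.1 q) := by
  classical
  rw [Finset.sum_coe_sort ((Finset.univ : Finset (Fin d)).finsuppAntidiag m) fun α => F α (coeff α q)]
  refine Finset.sum_subset (fun α hα => ?_) fun α _ hα => ?_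
  · rw [Finset.mem_finsuppAntidiag]
    refine ⟨?_, Finset.subset_univ _⟩
    have h2 : α.degree = m := by
      by_contra h3
      exact mem_support_iff.1 hα (hq.coeff_eq_zero h3)
    rw [Finsupp.degree_eq_sum] at h2
    simpa using h2
  · rw [notMem_support_iff.1 hα, hF]

/-- the coefficients after the substitution -/
theorem coeff_sbs (A : Matrix (Fin d) (Fin d) R) {m : ℕ} {q : MvPolynomial (Fin d) R} (hq : q.IsHomogeneous m) (β : Mon d m) :
    coeff β.1 (sbs A q) = ∑ α : Mon d m, coeff α.1 q * symMat m A α β := by
  refine Eq.trans ?_ (sum_mon hq (fun α c => c * coeff β.1 (sbs A (monomial α 1))) fun α => zero_mul _)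
  conv_lhs => rw [q.as_sum, map_sum, coeff_sum]
  refine Finset.sum_congr rfl fun α _ => ?_
  have h : monomial α (coeff α q) = (coeff α q) • monomial α (1 : R) := by rw [smul_monomial, smul_eq_mul, mul_one]
  rw [h, map_smul, coeff_smul, smul_eq_mul]

theorem monomial_isHomogeneous {m : ℕ} (α : Mon d m) : (monomial α.1 (1 : R)).IsHomogeneous m :=
  isHomogeneous_monomial _ α.degree_eq

theorem symMat_mul (m : ℕ) (A B : Matrix (Fin d) (Fin d) R) : symMat m (A * B) = symMat m B * symMat m A := by
  have h : sbs (A * B) = (sbs A).comp (sbs B) := by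
    refine MvPolynomial.algHom_ext fun k => ?_
    rw [AlgHom.comp_apply, sbs_X, sbs_X, map_sum]
    simp only [map_mul, algHom_C, algebraMap_eq, sbs_X, Finset.mul_sum]
    rw [Finset.sum_comm]
    refine Finset.sum_congr rfl fun l _ => ?_
    rw [Matrix.mul_apply, map_sum, Finset.sum_mul]
    refine Finset.sum_congr rfl fun j _ => ?_
    rw [map_mul]
    ring
  ext α β
  rw [Matrix.mul_apply]
  show coeff β.1 (sbs (A * B) (monomial α.1 1)) = _
  rw [h, AlgHom.comp_apply, coeff_sbs A (sbs_isHomogeneous B (monomial_isHomogeneous α))]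
  rfl

theorem symMat_diagonal (m : ℕ) (D : Fin d → R) : symMat m (diagonal D) = diagonal fun α => ∏ k, D k ^ α.1 k := by
  classical
  ext α β
  have h : sbs (diagonal D) (monomial α.1 1) = monomial α.1 (∏ k, D k ^ α.1 k) := by
    unfold sbs
    rw [aeval_monomial, map_one, one_mul, Finsupp.prod_fintype _ _ fun k => pow_zero _, monomial_eq,
      Finsupp.prod_fintype _ _ fun k => pow_zero _, map_prod, ← Finset.prod_mul_distrib]
    refine Finset.prod_congr rfl fun k _ => ?_
    rw [Finset.sum_eq_single k (fun l _ hl => by rw [diagonal_apply_ne _ hl, map_zero, zero_mul])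
      (fun hk => absurd (Finset.mem_univ k) hk), diagonal_apply_eq, mul_pow, map_pow]
  show coeff β.1 (sbs (diagonal D) (monomial α.1 1)) = _
  rw [h, coeff_monomial, diagonal_apply]
  simp only [Subtype.ext_iff]

theorem symMat_one (m : ℕ) : symMat m (1 : Matrix (Fin d) (Fin d) R) = 1 := by
  rw [← diagonal_one, symMat_diagonal]
  simp

/-- the exponent -/
def symExp (d m : ℕ) (k : Fin d) : ℕ := ∑ α : Mon d m, α.1 k

theorem symExp_eq (d m : ℕ) (k l : Fin d) : symExp d m k = symExp d m l := by
  let σ : Fin d ≃ Fin d := Equiv.swap k l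
  let e : Mon d m ≃ Mon d m :=
    { toFun := fun α => Mon.mk (Finsupp.equivMapDomain σ α.1) (by
        simp only [Finsupp.equivMapDomain_apply]
        rw [Equiv.sum_comp σ.symm fun k => α.1 k, α.sum_eq])
      invFun := fun α => Mon.mk (Finsupp.equivMapDomain σ.symm α.1) (by
        simp only [Finsupp.equivMapDomain_apply]
        rw [Equiv.sum_comp σ.symm.symm fun k => α.1 k, α.sum_eq])
      left_inv := fun α => Subtype.ext (by
        show Finsupp.equivMapDomain σ.symm (Finsupp.equivMapDomain σ α.1) = α.1
        rw [← Finsupp.equivMapDomain_trans, Equiv.self_trans_symm, Finsupp.equivMapDomain_refl])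
      right_inv := fun α => Subtype.ext (by
        show Finsupp.equivMapDomain σ (Finsupp.equivMapDomain σ.symm α.1) = α.1
        rw [← Finsupp.equivMapDomain_trans, Equiv.symm_trans_self, Finsupp.equivMapDomain_refl]) }
  unfold symExp
  refine Fintype.sum_equiv e _ _ fun α => ?_
  show α.1 k = Finsupp.equivMapDomain σ α.1 l
  rw [Finsupp.equivMapDomain_apply]
  congr 1
  exact (Equiv.swap_apply_right k l).symm

theorem sum_symExp (d m : ℕ) : ∑ k, symExp d m k = m * Fintype.card (Mon d m) := by
  unfold symExp
  rw [Finset.sum_comm]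
  simp only [Mon.sum_eq, Finset.sum_const, Finset.card_univ, smul_eq_mul]
  exact mul_comm _ _

/-- **The determinant of a symmetric power.** -/
theorem det_symMat (h2 : (2 : R) ≠ 0) (m : ℕ) (k₀ : Fin d) (A : Matrix (Fin d) (Fin d) R) (hA : A.det ≠ 0) :
    (symMat m A).det = A.det ^ symExp d m k₀ := by
  have hdiag : ∀ D : Fin d → R, (symMat m (diagonal D)).det = (diagonal D).det ^ symExp d m k₀ := by
    intro D
    rw [symMat_diagonal, det_diagonal, det_diagonal, Finset.prod_comm, ← Finset.prod_pow]
    refine Finset.prod_congr rfl fun k _ => ?_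
    rw [Finset.prod_pow_eq_pow_sum]
    exact congrArg (fun e => D k ^ e) (symExp_eq d m k k₀)
  have htr : ∀ t : TransvectionStruct (Fin d) R, (symMat m t.toMatrix).det = 1 := by
    intro t
    obtain ⟨i, j, hij, c⟩ := t
    show (symMat m (transvection i j c)).det = 1
    let D : Fin d → R := fun k => if k = i then 2 else 1
    have hD : ∀ k, D k ≠ 0 := fun k => by
      show (if k = i then (2 : R) else 1) ≠ 0
      split_ifs
      · exact h2
      · exact one_ne_zero
    have h1 : diagonal D * transvection i j c = (transvection i j c * transvection i j c) * diagonal D := by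
      rw [transvection_mul_transvection_same _ _ hij]
      ext k l
      rw [diagonal_mul, mul_diagonal, transvection, transvection, Matrix.add_apply, Matrix.add_apply, Matrix.one_apply]
      show (if k = i then (2 : R) else 1) * _ = _ * (if l = i then (2 : R) else 1)
      rw [Matrix.single_apply, Matrix.single_apply]
      by_cases hk : k = i
      · subst hk
        by_cases hl : l = k
        · subst hl
          rw [if_neg fun h : l = l ∧ j = l => hij h.2.symm, if_neg fun h : l = l ∧ j = l => hij h.2.symm]
          simp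
        · by_cases hj : j = l
          · subst hj
            simp [hl, Ne.symm hl]
            ring
          · rw [if_neg fun h : k = k ∧ j = l => hj h.2, if_neg fun h : k = k ∧ j = l => hj h.2]
            simp [Ne.symm hl]
      · rw [if_neg fun h : i = k ∧ j = l => hk h.1.symm, if_neg fun h : i = k ∧ j = l => hk h.1.symm]
        by_cases hkl : k = l
        · subst hkl
          simp [hk]
        · simp [hkl]
    have h4 := congrArg (fun M => (symMat m M).det) h1
    simp only [symMat_mul, det_mul] at h4
    have h5 : (symMat m (diagonal D)).det ≠ 0 := by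
      rw [hdiag, det_diagonal]
      exact pow_ne_zero _ (Finset.prod_ne_zero_iff.2 fun k _ => hD k)
    have h6 : (symMat m (transvection i j c)).det ≠ 0 := by
      intro h
      have h7 : transvection i j (-c) * transvection i j c = 1 := by
        rw [transvection_mul_transvection_same _ _ hij, neg_add_cancel, transvection_zero]
      have h8 := congrArg (fun M => (symMat m M).det) h7
      simp only [symMat_mul, det_mul, symMat_one, det_one, h, zero_mul] at h8
      exact zero_ne_one h8
    have h7 : (symMat m (transvection i j c)).det * ((symMat m (diagonal D)).det * (symMat m (transvection i j c)).det) =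
        1 * ((symMat m (diagonal D)).det * (symMat m (transvection i j c)).det) := by
      rw [one_mul]
      linear_combination -h4
    exact mul_right_cancel₀ (mul_ne_zero h5 h6) h7
  refine diagonal_transvection_induction_of_det_ne_zero (fun A => (symMat m A).det = A.det ^ symExp d m k₀) A hA (fun D _ => hdiag D)
    (fun t => ?_) fun A B _ _ h3 h4 => ?_
  · show (symMat m t.toMatrix).det = t.toMatrix.det ^ symExp d m k₀
    rw [htr, TransvectionStruct.det, one_pow]
  · show (symMat m (A * B)).det = (A * B).det ^ symExp d m k₀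
    rw [symMat_mul, det_mul, det_mul, mul_pow, h3, h4, mul_comm]

theorem exists_weight {d M : ℕ} (hd : 1 ≤ d) (hM : 1 ≤ M) : ∃ a, 1 ≤ a ∧ IsWeight d M a := by
  let k₀ : Fin d := ⟨0, hd⟩
  have ha : d * symExp d M k₀ = M * Fintype.card (Mon d M) := by
    rw [← sum_symExp, Finset.sum_congr rfl fun k _ => symExp_eq d M k k₀, Finset.sum_const, Finset.card_univ, Fintype.card_fin,
      smul_eq_mul]
  refine ⟨symExp d M k₀, ?_, fun F _ _ g hg p hp => ?_⟩
  · have h1 : 0 < Fintype.card (Mon d M) := by
      rw [Fintype.card_pos_iff]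
      refine ⟨Mon.mk (Finsupp.single k₀ M) ?_⟩
      rw [← Finsupp.degree_eq_sum, Finsupp.degree_single]
    rcases Nat.eq_zero_or_pos (symExp d M k₀) with h | h
    · rw [h, mul_zero] at ha
      exact absurd ha (Nat.mul_pos hM h1).ne
    · exact h
  · have h1 : (Matrix.of fun α β : Mon d M => coeff β.1 (sbs g (p α))) = (Matrix.of fun α β : Mon d M => coeff β.1 (p α)) * symMat M g := by
      ext α β
      rw [Matrix.mul_apply]
      exact coeff_sbs g (hp α) β
    have h2 := congrArg Matrix.det h1
    rw [det_mul, det_symMat two_ne_zero M k₀ g hg, mul_comm] at h2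
    unfold cdet
    convert h2

end Pool.Agent.GB
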