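import Pool.Agent.GB.Trf
import Pool.Agent.GB.Wt
import Pool.Agent.GB.Lat
import Pool.Agent.GB.Inv
import Pool.Agent.GB.Reg
import Pool.Agent.GB.Max
import Pool.Agent.GB.Ker
import Pool.Agent.GB.Psi
import Pool.Agent.GB.Prd
import Pool.Agent.GB.Spn
import Pool.Agent.GB.Crm
import Pool.Agent.GB.Cmb
import Pool.Agent.GB.Vec
import Pool.Agent.GB.Dex
import Pool.Agent.GB.Fin
import Pool.Agent.GB.Use
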