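import Mathlib

/-!
# GB Trf: a closed condition on complex points holds at all points with values in reduced rings

PROOF.  Nullstellensatz (`MvPolynomial.vanishingIdeal_zeroLocus_eq_radical`): a power of `G` is in the ideal generated by `S`.
-/

set_option autoImplicit false

open MvPolynomial

namespace Pool.Agent.GB

theorem transfer {σ : Type} [Finite σ] {S : Set (MvPolynomial σ ℂ)} {G : MvPolynomial σ ℂ}
    (h : ∀ y : σ → ℂ, (∀ s ∈ S, eval y s = 0) → eval y G = 0) {F : Type} [CommRing F] [IsReduced F] [Algebra ℂ F] (y : σ → F)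
    (hy : ∀ s ∈ S, aeval y s = 0) : aeval y G = 0 := by
  have h0 : ∀ (x : σ → ℂ) (g : MvPolynomial σ ℂ), aeval x g = eval x g := fun x g => by rw [← coe_aeval_eq_eval]; rfl
  have h1 : G ∈ vanishingIdeal ℂ (zeroLocus ℂ (Ideal.span S)) := by
    intro x hx
    rw [h0]
    refine h x fun s hs => ?_
    have := hx s (Ideal.subset_span hs)
    rwa [h0] at this
  rw [MvPolynomial.vanishingIdeal_zeroLocus_eq_radical] at h1
  obtain ⟨n, hn⟩ := h1
  have h2 : Ideal.span S ≤ RingHom.ker (aeval (R := ℂ) y) := Ideal.span_le.2 fun s hs => by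
    simpa [RingHom.mem_ker] using hy s hs
  have h3 : aeval y (G ^ n) = 0 := h2 hn
  rw [map_pow] at h3
  exact eq_zero_of_pow_eq_zero h3

end Pool.Agent.GB
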